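import Mathlib

set_option autoImplicit false
set_option linter.unusedSectionVars false
set_option linter.unusedSimpArgs false

/-! # The geometric representation of a Coxeter system and Tits' theorem -/

namespace Pool.Agent.H80.Cox

open CoxeterSystem

variable {B : Type*} [Fintype B] [DecidableEq B] {W : Type*} [Group W]

section matrix
variable (M : CoxeterMatrix B)

/-- `cc s t = cos (π / m_{st})` (with `π / 0 = 0`, so that it is `1` if `m_{st} = ∞`). -/
noncomputable def cc (s t : B) : ℝ := Real.cos (Real.pi / (M s t : ℝ))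

lemma cc_symm (s t : B) : cc M s t = cc M t s := by
  unfold cc; rw [M.symmetric]

@[simp] lemma cc_self (s : B) : cc M s s = -1 := by
  unfold cc; simp [M.diagonal]

lemma cc_of_eq_two {s t : B} (h : M s t = 2) : cc M s t = 0 := by
  unfold cc; rw [h]; simp

lemma cc_of_eq_three {s t : B} (h : M s t = 3) : cc M s t = 1 / 2 := by
  unfold cc; rw [h]; simp

lemma cc_of_eq_four {s t : B} (h : M s t = 4) : cc M s t ^ 2 = 1 / 2 := by
  unfold cc; rw [h]
  push_cast
  rw [Real.cos_pi_div_four, div_pow, Real.sq_sqrt (by norm_num)]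
  norm_num

lemma cc_of_eq_zero {s t : B} (h : M s t = 0) : cc M s t = 1 := by
  unfold cc; rw [h]; simp

lemma cc_le_one (s t : B) : cc M s t ≤ 1 := Real.cos_le_one _

lemma two_le {s t : B} (h : s ≠ t) (h0 : M s t ≠ 0) : 2 ≤ M s t := by
  have h1 := M.off_diagonal s t h
  omega

/-- monotonicity of `cc` in the label -/
lemma le_cc {s t : B} {k : ℕ} (hk : 2 ≤ k) (h : k ≤ M s t) :
    Real.cos (Real.pi / (k : ℝ)) ≤ cc M s t := by
  unfold cc
  have hk0 : (0 : ℝ) < (k : ℝ) := by exact_mod_cast (by omega : 0 < k)
  have hkm : (k : ℝ) ≤ (M s t : ℝ) := by exact_mod_cast h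
  apply Real.cos_le_cos_of_nonneg_of_le_pi
  · positivity
  · rw [div_le_iff₀ hk0]
    have h2 : (1 : ℝ) ≤ (k : ℝ) := by exact_mod_cast (by omega : 1 ≤ k)
    nlinarith [Real.pi_pos]
  · exact div_le_div_of_nonneg_left Real.pi_pos.le hk0 hkm

lemma cc_nonneg {s t : B} (h : s ≠ t) : 0 ≤ cc M s t := by
  by_cases h0 : M s t = 0
  · rw [cc_of_eq_zero M h0]; norm_num
  · have := le_cc M (le_refl 2) (two_le M h h0)
    simpa using this

lemma half_le_cc {s t : B} (h : s ≠ t) (h2 : M s t ≠ 2) : 1 / 2 ≤ cc M s t := by
  by_cases h0 : M s t = 0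
  · rw [cc_of_eq_zero M h0]; norm_num
  · have := le_cc M (s := s) (t := t) (k := 3) (by norm_num) (by have := two_le M h h0; omega)
    simpa using this

lemma half_le_cc_sq {s t : B} (h : M s t = 0 ∨ 4 ≤ M s t) : 1 / 2 ≤ cc M s t ^ 2 := by
  rcases h with h0 | h4
  · rw [cc_of_eq_zero M h0]; norm_num
  · have h5 := le_cc M (s := s) (t := t) (k := 4) (by norm_num) h4
    push_cast at h5
    rw [Real.cos_pi_div_four] at h5
    have h6 : (0 : ℝ) ≤ Real.sqrt 2 / 2 := by positivity
    calc (1 / 2 : ℝ) = (Real.sqrt 2 / 2) ^ 2 := by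
          rw [div_pow, Real.sq_sqrt (by norm_num)]; norm_num
      _ ≤ _ := by gcongr

lemma threequarters_le_cc_sq {s t : B} (h : M s t = 0 ∨ 6 ≤ M s t) : 3 / 4 ≤ cc M s t ^ 2 := by
  rcases h with h0 | h6
  · rw [cc_of_eq_zero M h0]; norm_num
  · have h5 := le_cc M (s := s) (t := t) (k := 6) (by norm_num) h6
    push_cast at h5
    rw [Real.cos_pi_div_six] at h5
    have h6 : (0 : ℝ) ≤ Real.sqrt 3 / 2 := by positivity
    calc (3 / 4 : ℝ) = (Real.sqrt 3 / 2) ^ 2 := by
          rw [div_pow, Real.sq_sqrt (by norm_num)]; norm_num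
      _ ≤ _ := by gcongr

/-- Chebyshev-type sequence attached to a pair of generators. -/
lemma exists_U {s t : B} (h : s ≠ t) : ∃ U : ℕ → ℝ, U 0 = 0 ∧ U 1 = 1 ∧
    (∀ k, U (k + 2) = 2 * cc M s t * U (k + 1) - U k) ∧
    (∀ k, M s t = 0 ∨ k ≤ M s t → 0 ≤ U k) ∧
    (M s t ≠ 0 → U (M s t) = 0 ∧ U (2 * M s t) = 0 ∧ U (2 * M s t + 1) = 1) := by
  by_cases h0 : M s t = 0
  · refine ⟨fun k => k, by simp, by simp, ?_, ?_, ?_⟩
    · intro k
      rw [cc_of_eq_zero M h0]; push_cast; ring
    · intro k _; positivity
    · intro h1; exact absurd h0 h1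
  · have h2 := two_le M h h0
    set m := M s t with hm
    set θ := Real.pi / (m : ℝ) with hθ
    have hm0 : (0 : ℝ) < m := by exact_mod_cast (by omega : 0 < m)
    have hθ0 : 0 < θ := by positivity
    have hmθ : (m : ℝ) * θ = Real.pi := by rw [hθ]; field_simp
    have hθπ : θ < Real.pi := by
      have : (2 : ℝ) ≤ m := by exact_mod_cast h2
      nlinarith [Real.pi_pos]
    have hs : 0 < Real.sin θ := Real.sin_pos_of_pos_of_lt_pi hθ0 hθπ
    have hc : cc M s t = Real.cos θ := by unfold cc; rw [← hm]
    refine ⟨fun k => Real.sin (k * θ) / Real.sin θ, by simp, ?_, ?_, ?_, ?_⟩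
    · simp [hs.ne']
    · intro k
      rw [hc]
      have h3 : Real.sin (((k + 2 : ℕ) : ℝ) * θ) = 2 * Real.cos θ * Real.sin (((k + 1 : ℕ) : ℝ) * θ)
          - Real.sin (k * θ) := by
        push_cast
        have e1 : ((k : ℝ) + 2) * θ = (k + 1) * θ + θ := by ring
        have e2 : (k : ℝ) * θ = (k + 1) * θ - θ := by ring
        rw [e1, e2, Real.sin_add, Real.sin_sub]
        ring
      simp only
      rw [h3]
      ring
    · intro k hk
      have hk' : k ≤ m := hk.resolve_left h0
      apply div_nonneg _ hs.le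
      apply Real.sin_nonneg_of_nonneg_of_le_pi (by positivity)
      rw [← hmθ]
      have : (k : ℝ) ≤ m := by exact_mod_cast hk'
      gcongr
    · intro _
      refine ⟨?_, ?_, ?_⟩
      · simp only; rw [hmθ]; simp
      · simp only
        push_cast
        rw [mul_assoc, hmθ]; simp
      · simp only
        push_cast
        have e1 : (2 * (m : ℝ) + 1) * θ = θ + 2 * Real.pi := by rw [← hmθ]; ring
        rw [e1, Real.sin_add_two_pi, div_self hs.ne']

/-- simple roots -/
def al (s : B) : B → ℝ := Pi.single s 1

lemma al_self (s : B) : al s s = 1 := by simp [al]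

lemma al_ne {s t : B} (h : t ≠ s) : al s t = 0 := by simp [al, h]

lemma al_nonneg (s : B) : 0 ≤ al s := by
  intro t
  by_cases h : t = s
  · subst h; rw [al_self]; simp
  · rw [al_ne h]; simp

/-- The functional `x ↦ B(x, α_s)`. -/
noncomputable def fB (s : B) : (B → ℝ) →ₗ[ℝ] ℝ :=
  ∑ i, (-(cc M i s)) • (LinearMap.proj i : (B → ℝ) →ₗ[ℝ] ℝ)

lemma fB_apply (s : B) (x : B → ℝ) : fB M s x = ∑ i, -(cc M i s) * x i := by
  simp [fB]

lemma fB_al (s t : B) : fB M s (al t) = - cc M t s := by
  rw [fB_apply]
  rw [Finset.sum_eq_single t]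
  · rw [al_self]; ring
  · intro b _ hb; rw [al_ne hb]; ring
  · simp

lemma fB_al_self (s : B) : fB M s (al s) = 1 := by
  rw [fB_al, cc_self]; norm_num

/-- simple reflection of the geometric representation -/
noncomputable def sig (s : B) : Module.End ℝ (B → ℝ) :=
  LinearMap.id - (2 : ℝ) • (LinearMap.toSpanSingleton ℝ (B → ℝ) (al s)).comp (fB M s)

lemma sig_apply (s : B) (x : B → ℝ) : sig M s x = x - (2 * fB M s x) • al s := by
  simp [sig, mul_smul]

lemma sig_al (s t : B) : sig M s (al t) = al t + (2 * cc M t s) • al s := by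
  rw [sig_apply, fB_al]
  simp [sub_eq_add_neg]

lemma sig_al_self (s : B) : sig M s (al s) = - al s := by
  rw [sig_al, cc_self]
  module

lemma sig_coord {s i : B} (h : i ≠ s) (x : B → ℝ) : sig M s x i = x i := by
  rw [sig_apply]
  simp [al_ne h]

lemma sig_coord_self (s : B) (x : B → ℝ) : sig M s x s = x s - 2 * fB M s x := by
  rw [sig_apply]
  simp [al_self]

lemma sig_mul_self (s : B) : sig M s * sig M s = 1 := by
  ext1 x
  apply LinearMap.ext
  intro y
  simp only [Module.End.mul_apply, LinearMap.comp_apply, Module.End.one_apply]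
  rw [sig_apply, sig_apply, map_sub, map_smul, fB_al_self]
  simp only [smul_eq_mul, mul_one]
  module

lemma sig_sig (s : B) (x : B → ℝ) : sig M s (sig M s x) = x := by
  have := congrArg (fun f => f x) (sig_mul_self M s)
  simpa using this

lemma liftable : CoxeterMatrix.IsLiftable M (sig M) := by
  intro s t
  by_cases hst : s = t
  · subst hst
    rw [sig_mul_self]; simp
  by_cases h0 : M s t = 0
  · rw [h0]; simp
  obtain ⟨U, U0, U1, Urec, Upos, Um⟩ := exists_U M hst
  obtain ⟨-, Um1, Um2⟩ := Um h0
  set c := cc M s t with hc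
  have hc' : cc M t s = c := by rw [cc_symm]
  set R := sig M s * sig M t with hR
  have hRs : R (al s) = (4 * c ^ 2 - 1) • al s + (2 * c) • al t := by
    rw [hR, Module.End.mul_apply, sig_al, map_add, map_smul, sig_al_self, sig_al, hc', ← hc]
    module
  have hRt : R (al t) = (-(2 * c)) • al s - al t := by
    rw [hR, Module.End.mul_apply, sig_al_self, map_neg, sig_al, hc']
    module
  have key : ∀ k : ℕ, (R ^ k) (al s) = U (2 * k + 1) • al s + U (2 * k) • al t ∧
      (R ^ k) (al t) = (-(U (2 * k))) • al s - (2 * c * U (2 * k) - U (2 * k + 1)) • al t := by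
    intro k
    induction k with
    | zero =>
      simp only [pow_zero, Module.End.one_apply, mul_zero, zero_add, U0, U1]
      constructor <;> module
    | succ k ih =>
      have e1 : U (2 * (k + 1) + 1) = 2 * c * U (2 * (k + 1)) - U (2 * k + 1) := by
        have := Urec (2 * k + 1)
        exact this
      have e2 : U (2 * (k + 1)) = 2 * c * U (2 * k + 1) - U (2 * k) := Urec (2 * k)
      have hR1 : ∀ z, (R ^ (k + 1)) z = R ((R ^ k) z) := by
        intro z; rw [pow_succ']; rfl
      rw [hR1, hR1, ih.1, ih.2]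
      constructor
      · rw [map_add, map_smul, map_smul, hRs, hRt, e1, e2]
        module
      · rw [map_sub, map_smul, map_smul, hRs, hRt, e1, e2]
        module
  have key1 := (key (M s t)).1
  have key2 := (key (M s t)).2
  rw [Um1, Um2] at key1 key2
  have key1' : (R ^ (M s t)) (al s) = al s := by rw [key1]; module
  have key2' : (R ^ (M s t)) (al t) = al t := by rw [key2]; module
  -- determinant is nonzero
  have hdet : 1 - c ^ 2 ≠ 0 := by
    intro hdet
    have hc2 : c ^ 2 = 1 := by linarith
    have h1 : U 2 = 2 * c := by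
      have := Urec 0
      rw [U0, U1] at this; rw [this]; ring
    -- c = cos(π/m) with 0<π/m<π
    have h2 := two_le M hst h0
    have hm0 : (0 : ℝ) < (M s t : ℝ) := by exact_mod_cast (by omega : 0 < M s t)
    have hs : 0 < Real.sin (Real.pi / (M s t : ℝ)) := by
      apply Real.sin_pos_of_pos_of_lt_pi (by positivity)
      rw [div_lt_iff₀ hm0]
      have : (2 : ℝ) ≤ (M s t : ℝ) := by exact_mod_cast h2
      nlinarith [Real.pi_pos]
    have h3 := Real.sin_sq_add_cos_sq (Real.pi / (M s t : ℝ))
    have h4 : Real.cos (Real.pi / (M s t : ℝ)) = c := rfl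
    rw [h4] at h3
    nlinarith
  apply LinearMap.ext
  intro x
  set p := (fB M s x + c * fB M t x) / (1 - c ^ 2) with hp
  set q := (fB M t x + c * fB M s x) / (1 - c ^ 2) with hq
  set y := x - p • al s - q • al t with hy
  have hp' : p * (1 - c ^ 2) = fB M s x + c * fB M t x := by rw [hp]; field_simp
  have hq' : q * (1 - c ^ 2) = fB M t x + c * fB M s x := by rw [hq]; field_simp
  have hys : fB M s y = 0 := by
    rw [hy, map_sub, map_sub, map_smul, map_smul, fB_al_self, fB_al, hc']
    simp only [smul_eq_mul]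
    have : (fB M s x - p * 1 - q * -c) * (1 - c ^ 2) = 0 := by linear_combination -hp' + c * hq'
    exact (mul_eq_zero.1 this).resolve_right hdet
  have hyt : fB M t y = 0 := by
    rw [hy, map_sub, map_sub, map_smul, map_smul, fB_al_self, fB_al, ← hc]
    simp only [smul_eq_mul]
    have : (fB M t x - p * -c - q * 1) * (1 - c ^ 2) = 0 := by linear_combination -hq' + c * hp'
    exact (mul_eq_zero.1 this).resolve_right hdet
  have hRy : R y = y := by
    rw [hR, Module.End.mul_apply, sig_apply M t, hyt]
    simp only [mul_zero, zero_smul, sub_zero]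
    rw [sig_apply, hys]
    simp
  have hRky : ∀ k : ℕ, (R ^ k) y = y := by
    intro k
    induction k with
    | zero => simp
    | succ k ih => rw [pow_succ', Module.End.mul_apply, ih, hRy]
  have hx : x = y + p • al s + q • al t := by rw [hy]; module
  conv_lhs => rw [hx]
  rw [map_add, map_add, map_smul, map_smul, key1', key2', hRky, Module.End.one_apply, ← hx]

end matrix

section rep
variable {M : CoxeterMatrix B} (cs : CoxeterSystem M W)

/-- The geometric representation. -/
noncomputable def rho : W →* Module.End ℝ (B → ℝ) := cs.lift ⟨sig M, liftable M⟩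

lemma rho_simple (s : B) : rho cs (cs.simple s) = sig M s := by
  unfold rho; exact cs.lift_apply_simple _ _

lemma rho_mul (v w : W) (x : B → ℝ) : rho cs (v * w) x = rho cs v (rho cs w x) := by
  rw [map_mul]; rfl

@[simp] lemma rho_one (x : B → ℝ) : rho cs 1 x = x := by
  rw [map_one]; rfl

lemma rho_inv_cancel (w : W) (x : B → ℝ) : rho cs w⁻¹ (rho cs w x) = x := by
  rw [← rho_mul]; simp

lemma rho_cancel_inv (w : W) (x : B → ℝ) : rho cs w (rho cs w⁻¹ x) = x := by
  rw [← rho_mul]; simp

lemma rho_injective (w : W) : Function.Injective (rho cs w) := by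
  intro x y h
  rw [← rho_inv_cancel cs w x, h, rho_inv_cancel]

lemma rho_al_ne_zero (w : W) (s : B) : rho cs w (al s) ≠ 0 := by
  intro h
  have h1 : al s = 0 := rho_injective cs w (by rw [h, map_zero])
  have h2 := congrFun h1 s
  rw [al_self] at h2
  simp at h2

lemma rho_mul_simple_al (w : W) (s : B) : rho cs (w * cs.simple s) (al s) = - rho cs w (al s) := by
  rw [rho_mul, rho_simple, sig_al_self, map_neg]

/-- action of alternating words on a simple root -/
lemma rho_alt {s t : B} (U : ℕ → ℝ) (U0 : U 0 = 0) (U1 : U 1 = 1)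
    (Urec : ∀ k, U (k + 2) = 2 * cc M s t * U (k + 1) - U k) (k : ℕ) :
    rho cs (cs.wordProd (alternatingWord s t k)) (al s) =
      if Even k then U (k + 1) • al s + U k • al t else U (k + 1) • al t + U k • al s := by
  induction k with
  | zero => simp [alternatingWord, U0, U1]
  | succ k ih =>
    rw [alternatingWord_succ', wordProd_cons, rho_mul, ih]
    by_cases hk : Even k
    · have hk1 : ¬ Even (k + 1) := by simp [hk, parity_simps]
      simp only [hk, hk1, if_true, if_false]
      rw [rho_simple, map_add, map_smul, map_smul, sig_al, sig_al_self, Urec]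
      module
    · have hk1 : Even (k + 1) := by simp [hk, parity_simps]
      simp only [hk, hk1, if_true, if_false]
      rw [rho_simple, map_add, map_smul, map_smul, sig_al, sig_al_self, Urec, cc_symm M t s]
      module

/-- Tits' theorem, positive part. -/
theorem tits_pos (w : W) (s : B) (h : cs.length (w * cs.simple s) = cs.length w + 1) :
    0 ≤ rho cs w (al s) := by
  induction hn : cs.length w using Nat.strong_induction_on generalizing w s with
  | _ n ih =>
  subst hn
  by_cases hw : w = 1
  · subst hw
    rw [rho_one]; exact al_nonneg s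
  obtain ⟨t, ht⟩ := cs.exists_rightDescent_of_ne_one hw
  rw [isRightDescent_iff] at ht
  have hst : s ≠ t := by
    rintro rfl; omega
  -- the longest alternating suffix
  let P : ℕ → Prop := fun k => ∃ v, w = v * cs.wordProd (alternatingWord s t k) ∧
    cs.length v + k = cs.length w
  have hP1 : P 1 := ⟨w * cs.simple t, by simp [alternatingWord], ht⟩
  have hPle : ∀ k, P k → k ≤ cs.length w := by
    rintro k ⟨v, _, h2⟩; omega
  classical
  set k := Nat.findGreatest P (cs.length w) with hk
  have hk1 : 1 ≤ k := Nat.le_findGreatest (hPle 1 hP1) hP1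
  have hPk : P k := Nat.findGreatest_spec (hPle 1 hP1) hP1
  have hPk1 : ¬ P (k + 1) := by
    intro h1
    have := Nat.le_findGreatest (hPle _ h1) h1
    omega
  obtain ⟨v, hv, hvl⟩ := hPk
  have hlt : cs.length v < cs.length w := by omega
  -- next letter
  have hx : cs.length (v * cs.simple (if Even k then t else s)) = cs.length v + 1 := by
    by_contra hcon
    have h1 := (cs.length_mul_simple v (if Even k then t else s)).resolve_left hcon
    apply hPk1
    refine ⟨v * cs.simple (if Even k then t else s), ?_, by omega⟩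
    rw [alternatingWord_succ', wordProd_cons, ← mul_assoc, simple_mul_simple_cancel_right]
    exact hv
  have hy : cs.length (v * cs.simple (if Even k then s else t)) = cs.length v + 1 := by
    by_contra hcon
    have h1 := (cs.length_mul_simple v (if Even k then s else t)).resolve_left hcon
    obtain ⟨j, hj⟩ : ∃ j, k = j + 1 := ⟨k - 1, by omega⟩
    have h2 : (if Even k then s else t) = (if Even j then t else s) := by
      rw [hj]
      by_cases hje : Even j
      · have : ¬ Even (j + 1) := by simp [hje, parity_simps]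
        simp [hje, this]
      · have : Even (j + 1) := by simp [hje, parity_simps]
        simp [hje, this]
    rw [h2] at h1
    rw [hj, alternatingWord_succ', wordProd_cons, ← mul_assoc] at hv
    have h3 := cs.length_mul_le (v * cs.simple (if Even j then t else s))
      (cs.wordProd (alternatingWord s t j))
    rw [← hv] at h3
    have h4 := cs.length_wordProd_le (alternatingWord s t j)
    rw [length_alternatingWord] at h4
    omega
  have px := ih _ hlt v _ hx rfl
  have py := ih _ hlt v _ hy rfl
  have pst : 0 ≤ rho cs v (al s) ∧ 0 ≤ rho cs v (al t) := by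
    by_cases hke : Even k
    · simp only [hke, if_true] at px py; exact ⟨py, px⟩
    · simp only [hke, if_false] at px py; exact ⟨px, py⟩
  have hkm : M s t = 0 ∨ k + 1 ≤ M s t := by
    by_contra hcon
    push Not at hcon
    obtain ⟨h0, h1⟩ := hcon
    have h2 : w * cs.simple s = v * cs.wordProd (alternatingWord t s (k + 1)) := by
      rw [alternatingWord_succ, wordProd_concat, ← mul_assoc, ← hv]
    have h0' : M t s ≠ 0 := by rw [M.symmetric]; exact h0
    have h3 := cs.not_isReduced_alternatingWord t s h0' (m := k + 1) (by rw [M.symmetric]; omega)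
    have h4 := cs.length_wordProd_le (alternatingWord t s (k + 1))
    rw [length_alternatingWord] at h4
    have h5 : cs.length (cs.wordProd (alternatingWord t s (k + 1))) ≠ k + 1 := by
      intro h5; apply h3; unfold CoxeterSystem.IsReduced; rw [h5, length_alternatingWord]
    have h6 := cs.length_mul_le v (cs.wordProd (alternatingWord t s (k + 1)))
    rw [← h2] at h6
    omega
  obtain ⟨U, U0, U1, Urec, Upos, -⟩ := exists_U M hst
  have hU1 : 0 ≤ U (k + 1) := Upos _ hkm
  have hU0 : 0 ≤ U k := Upos _ (by rcases hkm with h | h; exact Or.inl h; right; omega)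
  conv_rhs => rw [hv]
  rw [rho_mul, rho_alt cs U U0 U1 Urec]
  split_ifs
  · rw [map_add, map_smul, map_smul]
    exact add_nonneg (smul_nonneg hU1 pst.1) (smul_nonneg hU0 pst.2)
  · rw [map_add, map_smul, map_smul]
    exact add_nonneg (smul_nonneg hU1 pst.2) (smul_nonneg hU0 pst.1)

theorem tits_neg (w : W) (s : B) (h : cs.length (w * cs.simple s) + 1 = cs.length w) :
    rho cs w (al s) ≤ 0 := by
  have h1 := tits_pos cs (w * cs.simple s) s (by rw [simple_mul_simple_cancel_right]; omega)
  rw [rho_mul_simple_al] at h1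
  exact neg_nonneg.1 h1

/-- `w α_s ≥ 0` iff `s` is not a right descent of `w`. -/
theorem pos_iff (w : W) (s : B) :
    0 ≤ rho cs w (al s) ↔ cs.length (w * cs.simple s) = cs.length w + 1 := by
  constructor
  · intro h
    rcases cs.length_mul_simple w s with h1 | h1
    · exact h1
    · exact absurd (le_antisymm (tits_neg cs w s h1) h) (rho_al_ne_zero cs w s)
  · exact tits_pos cs w s

theorem neg_iff (w : W) (s : B) :
    rho cs w (al s) ≤ 0 ↔ cs.length (w * cs.simple s) + 1 = cs.length w := by
  constructor
  · intro h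
    rcases cs.length_mul_simple w s with h1 | h1
    · exact absurd (le_antisymm h (tits_pos cs w s h1)) (rho_al_ne_zero cs w s)
    · exact h1
  · exact tits_neg cs w s

theorem pos_or_neg (w : W) (s : B) : 0 ≤ rho cs w (al s) ∨ rho cs w (al s) ≤ 0 := by
  rcases cs.length_mul_simple w s with h1 | h1
  · exact Or.inl (tits_pos cs w s h1)
  · exact Or.inr (tits_neg cs w s h1)

theorem not_pos_and_neg {w : W} {s : B} (h1 : 0 ≤ rho cs w (al s)) (h2 : rho cs w (al s) ≤ 0) :
    False := rho_al_ne_zero cs w s (le_antisymm h2 h1)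

theorem neg_of_not_pos {w : W} {s : B} (h : ¬ 0 ≤ rho cs w (al s)) : rho cs w (al s) ≤ 0 :=
  (pos_or_neg cs w s).resolve_left h

theorem pos_of_not_neg {w : W} {s : B} (h : ¬ rho cs w (al s) ≤ 0) : 0 ≤ rho cs w (al s) :=
  (pos_or_neg cs w s).resolve_right h

end rep

end Pool.Agent.H80.Cox
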