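import Mathlib
import Pool.Agent.H80.Cox.Rep

set_option autoImplicit false
set_option linter.unusedSectionVars false
set_option linter.unusedSimpArgs false

/-! # Standard parabolic subgroups, minimal coset representatives, spherical subsets -/

namespace Pool.Agent.H80.Cox

open CoxeterSystem

variable {B : Type*} [Fintype B] [DecidableEq B] {W : Type*} [Group W]
variable {M : CoxeterMatrix B} (cs : CoxeterSystem M W)

/-- standard parabolic subgroup -/
def WP (K : Finset B) : Subgroup W := Subgroup.closure (cs.simple '' (K : Set B))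

lemma simple_mem {K : Finset B} {s : B} (h : s ∈ K) : cs.simple s ∈ WP cs K :=
  Subgroup.subset_closure ⟨s, by exact_mod_cast h, rfl⟩

lemma WP_mono {K K' : Finset B} (h : K ⊆ K') : WP cs K ≤ WP cs K' :=
  Subgroup.closure_mono (Set.image_mono (by exact_mod_cast h))

lemma rho_coord {K : Finset B} {w : W} (hw : w ∈ WP cs K) (x : B → ℝ) {i : B} (hi : i ∉ K) :
    rho cs w x i = x i := by
  unfold WP at hw
  induction hw using Subgroup.closure_induction generalizing x with
  | mem y hy =>
    obtain ⟨s, hs, rfl⟩ := hy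
    rw [rho_simple]
    apply sig_coord
    rintro rfl
    exact hi (by exact_mod_cast hs)
  | one => rw [rho_one]
  | mul a b _ _ iha ihb => rw [rho_mul, iha, ihb]
  | inv a _ iha =>
    have := iha (rho cs a⁻¹ x)
    rw [rho_cancel_inv] at this
    exact this.symm

lemma desc_mem {K : Finset B} {w : W} (hw : w ∈ WP cs K) {s : B} (h : rho cs w (al s) ≤ 0) :
    s ∈ K := by
  by_contra hs
  have h1 := rho_coord cs hw (al s) hs
  have h2 := h s
  rw [h1, al_self] at h2
  simp at h2
  linarith

lemma simple_mul_mem {K : Finset B} {w : W} (hw : w ∈ WP cs K) {s : B} (hs : s ∈ K) :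
    w * cs.simple s ∈ WP cs K := mul_mem hw (simple_mem cs hs)

/-- Induction along reduced words of elements of a standard parabolic subgroup. -/
theorem WP_induction {K : Finset B} {P : W → Prop} (h1 : P 1)
    (hstep : ∀ w ∈ WP cs K, ∀ s ∈ K, cs.length (w * cs.simple s) = cs.length w + 1 → P w →
      P (w * cs.simple s)) : ∀ w ∈ WP cs K, P w := by
  intro w
  induction hn : cs.length w using Nat.strong_induction_on generalizing w with
  | _ n ih =>
  subst hn
  intro hw
  by_cases hw1 : w = 1
  · subst hw1; exact h1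
  obtain ⟨s, hs⟩ := cs.exists_rightDescent_of_ne_one hw1
  rw [isRightDescent_iff] at hs
  have hsK : s ∈ K := desc_mem cs hw (tits_neg cs w s hs)
  have h2 := simple_mul_mem cs hw hsK
  have h3 := ih _ (by omega) (w * cs.simple s) rfl h2
  have h4 := hstep _ h2 s hsK (by rw [simple_mul_simple_cancel_right]; omega) h3
  rwa [simple_mul_simple_cancel_right] at h4

lemma eq_sum_al (x : B → ℝ) : x = ∑ i, x i • al i := by
  ext j
  rw [Finset.sum_apply, Finset.sum_eq_single j]
  · simp [al_self]
  · intro b _ hb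
    simp [al_ne (Ne.symm hb)]
  · simp

lemma eq_sum_al' {K : Finset B} (x : B → ℝ) (hs : ∀ i ∉ K, x i = 0) : x = ∑ i ∈ K, x i • al i := by
  conv_lhs => rw [eq_sum_al x]
  symm
  apply Finset.sum_subset (Finset.subset_univ _)
  intro i _ hi
  rw [hs i hi, zero_smul]

lemma comb_nonneg {K : Finset B} {v : W} (hv : ∀ r ∈ K, 0 ≤ rho cs v (al r)) {x : B → ℝ}
    (hx : 0 ≤ x) (hs : ∀ i ∉ K, x i = 0) : 0 ≤ rho cs v x := by
  rw [eq_sum_al' x hs, map_sum]
  apply Finset.sum_nonneg
  intro i hi
  rw [map_smul]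
  exact smul_nonneg (hx i) (hv i hi)

lemma comb_nonpos {K : Finset B} {v : W} (hv : ∀ r ∈ K, rho cs v (al r) ≤ 0) {x : B → ℝ}
    (hx : 0 ≤ x) (hs : ∀ i ∉ K, x i = 0) : rho cs v x ≤ 0 := by
  rw [eq_sum_al' x hs, map_sum]
  apply Finset.sum_nonpos
  intro i hi
  rw [map_smul]
  exact smul_nonpos_of_nonneg_of_nonpos (hx i) (hv i hi)

lemma supp_rho {K : Finset B} {w : W} (hw : w ∈ WP cs K) {r : B} (hr : r ∈ K) :
    ∀ i ∉ K, rho cs w (al r) i = 0 := by
  intro i hi
  rw [rho_coord cs hw _ hi]
  exact al_ne (by rintro rfl; exact hi hr)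

lemma length_mul_of_pos {K : Finset B} {v : W} (hv : ∀ r ∈ K, 0 ≤ rho cs v (al r)) {x : W}
    (hx : x ∈ WP cs K) : cs.length (v * x) = cs.length v + cs.length x := by
  revert x
  apply WP_induction
  · simp
  · intro w hw s hs hl ih
    have h1 := tits_pos cs w s hl
    have h2 := comb_nonneg cs hv h1 (supp_rho cs hw hs)
    rw [← rho_mul, pos_iff] at h2
    rw [← mul_assoc, h2, ih, hl]
    ring

/-- `w = v x`, `x ∈ W_K`, `v` minimal in `v W_K`. -/
theorem exists_dec (K : Finset B) (w : W) : ∃ v x, w = v * x ∧ x ∈ WP cs K ∧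
    ∀ r ∈ K, 0 ≤ rho cs v (al r) := by
  induction hn : cs.length w using Nat.strong_induction_on generalizing w with
  | _ n ih =>
  subst hn
  by_cases h : ∀ r ∈ K, 0 ≤ rho cs w (al r)
  · exact ⟨w, 1, by simp, one_mem _, h⟩
  · push Not at h
    obtain ⟨r, hr, hr'⟩ := h
    have h1 := neg_of_not_pos cs hr'
    rw [neg_iff] at h1
    obtain ⟨v, x, hvx, hx, hv⟩ := ih _ (by omega) (w * cs.simple r) rfl
    refine ⟨v, x * cs.simple r, ?_, simple_mul_mem cs hx hr, hv⟩
    rw [← mul_assoc, ← hvx, simple_mul_simple_cancel_right]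

theorem dec_unique {K : Finset B} {v v' x x' : W} (h : v * x = v' * x') (hx : x ∈ WP cs K)
    (hx' : x' ∈ WP cs K) (hv : ∀ r ∈ K, 0 ≤ rho cs v (al r)) (hv' : ∀ r ∈ K, 0 ≤ rho cs v' (al r)) :
    v = v' ∧ x = x' := by
  have h1 : v = v' * (x' * x⁻¹) := by rw [← mul_assoc, ← h]; simp
  have h2 : v' = v * (x * x'⁻¹) := by rw [← mul_assoc, h]; simp
  have l1 := length_mul_of_pos cs hv' (mul_mem hx' (inv_mem hx))
  have l2 := length_mul_of_pos cs hv (mul_mem hx (inv_mem hx'))
  rw [← h1] at l1
  rw [← h2] at l2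
  have l3 : cs.length (x' * x⁻¹) = 0 := by omega
  rw [length_eq_zero_iff] at l3
  rw [l3, mul_one] at h1
  subst h1
  exact ⟨rfl, mul_left_cancel h⟩

/-- suffixes and prefixes of elements of `W_K` are in `W_K` -/
theorem suffix_mem {K : Finset B} {v x : W} (h : v * x ∈ WP cs K)
    (hl : cs.length (v * x) = cs.length v + cs.length x) : x ∈ WP cs K := by
  induction hn : cs.length x using Nat.strong_induction_on generalizing x with
  | _ n ih =>
  subst hn
  by_cases hx : x = 1
  · subst hx; exact one_mem _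
  obtain ⟨s, hs⟩ := cs.exists_rightDescent_of_ne_one hx
  rw [isRightDescent_iff] at hs
  have h1 := cs.length_mul_le v (x * cs.simple s)
  have h2 := cs.length_mul_simple (v * x) s
  have h3 : cs.length (v * x * cs.simple s) + 1 = cs.length (v * x) := by
    rcases h2 with h2 | h2
    · rw [mul_assoc] at h2
      omega
    · exact h2
  have hsK : s ∈ K := desc_mem cs h (tits_neg cs _ s h3)
  have h4 := simple_mul_mem cs h hsK
  rw [mul_assoc] at h4 h3
  have h5 := ih _ (by omega) (x := x * cs.simple s) h4 (by omega) rfl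
  have h6 := simple_mul_mem cs h5 hsK
  rwa [simple_mul_simple_cancel_right] at h6

theorem inter_mem {K K' : Finset B} {w : W} (h : w ∈ WP cs K) (h' : w ∈ WP cs K') :
    w ∈ WP cs (K ∩ K') := by
  revert h'
  revert w
  apply WP_induction
  · intro _; exact one_mem _
  · intro w hw s hs hl ih h'
    have h1 : s ∈ K' := by
      apply desc_mem cs h'
      rw [neg_iff, simple_mul_simple_cancel_right, hl]
    have h2 : w ∈ WP cs K' := by
      have := simple_mul_mem cs h' h1
      rwa [simple_mul_simple_cancel_right] at this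
    exact simple_mul_mem cs (ih h2) (Finset.mem_inter.2 ⟨hs, h1⟩)

/-! ### commuting generators -/

lemma simple_comm {a b : B} (h : M a b = 2) :
    cs.simple a * cs.simple b = cs.simple b * cs.simple a := by
  have h1 := cs.simple_mul_simple_pow a b
  rw [h, pow_two] at h1
  have h2 : cs.simple a * cs.simple b = (cs.simple a * cs.simple b)⁻¹ :=
    eq_inv_of_mul_eq_one_left h1
  rw [h2]; simp

lemma mul_simple_comm {A : Finset B} {r : B} (h : ∀ a ∈ A, M a r = 2) {w : W}
    (hw : w ∈ WP cs A) : w * cs.simple r = cs.simple r * w := by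
  revert w
  apply WP_induction
  · simp
  · intro w _ s hs _ ih
    rw [mul_assoc, simple_comm cs (h s hs), ← mul_assoc, ih, mul_assoc]

lemma mul_comm_of {A C : Finset B} (h : ∀ a ∈ A, ∀ c ∈ C, M a c = 2) {w z : W}
    (hw : w ∈ WP cs A) (hz : z ∈ WP cs C) : w * z = z * w := by
  revert z
  apply WP_induction
  · simp
  · intro z _ s hs _ ih
    rw [← mul_assoc, ih, mul_assoc, mul_simple_comm cs (fun a ha => h a ha s hs) hw, mul_assoc]

lemma rho_fix {A : Finset B} {r : B} (h : ∀ a ∈ A, M a r = 2) {w : W}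
    (hw : w ∈ WP cs A) : rho cs w (al r) = al r := by
  revert w
  apply WP_induction
  · simp
  · intro w _ s hs _ ih
    rw [rho_mul, rho_simple, sig_al, cc_of_eq_two M (by rw [M.symmetric]; exact h s hs)]
    simp [ih]

lemma exists_comm_dec {A C : Finset B} (h : ∀ a ∈ A, ∀ c ∈ C, M a c = 2) :
    ∀ w ∈ WP cs (A ∪ C), ∃ a ∈ WP cs A, ∃ c ∈ WP cs C, w = a * c := by
  apply WP_induction
  · exact ⟨1, one_mem _, 1, one_mem _, by simp⟩
  · intro w _ s hs _ ih
    obtain ⟨a, ha, c, hc, rfl⟩ := ih
    rcases Finset.mem_union.1 hs with hs | hs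
    · refine ⟨a * cs.simple s, simple_mul_mem cs ha hs, c, hc, ?_⟩
      rw [mul_assoc, mul_assoc]
      congr 1
      exact mul_simple_comm cs (fun c hc => by rw [M.symmetric]; exact h s hs c hc) hc
    · exact ⟨a, ha, c * cs.simple s, simple_mul_mem cs hc hs, by rw [mul_assoc]⟩

/-! ### spherical subsets -/

/-- `L` is spherical: there is an element of `W_L` making all simple roots of `L` negative. -/
def FinS (L : Finset B) : Prop := ∃ w ∈ WP cs L, ∀ r ∈ L, rho cs w (al r) ≤ 0

theorem FinS.length_le {L : Finset B} {w : W} (h : ∀ r ∈ L, rho cs w (al r) ≤ 0) :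
    ∀ x ∈ WP cs L, cs.length (w * x) + cs.length x = cs.length w := by
  apply WP_induction
  · simp
  · intro x hx s hs hl ih
    have h1 := tits_pos cs x s hl
    have h2 := comb_nonpos cs h h1 (supp_rho cs hx hs)
    rw [← rho_mul, neg_iff] at h2
    rw [← mul_assoc, hl]
    omega

lemma finite_length_le (n : ℕ) : {w : W | cs.length w ≤ n}.Finite := by
  have h1 : (Set.range (fun l : (Σ k : Fin (n + 1), (Fin k → B)) =>
      cs.wordProd (List.ofFn l.2))).Finite := Set.finite_range _
  apply h1.subset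
  intro w hw
  obtain ⟨ω, hω, rfl⟩ := cs.exists_isReduced w
  have h2 : ω.length ≤ n := by
    have : cs.length (cs.wordProd ω) ≤ n := hw
    rwa [hω.eq] at this
  refine ⟨⟨⟨ω.length, by omega⟩, fun i => ω.get i⟩, ?_⟩
  simp only
  congr 1
  exact List.ofFn_get ω

theorem FinS.finite {L : Finset B} (h : FinS cs L) : (WP cs L : Set W).Finite := by
  obtain ⟨w, _, hw⟩ := h
  apply (finite_length_le cs (cs.length w)).subset
  intro x hx
  have := FinS.length_le cs hw x hx
  show cs.length x ≤ cs.length w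
  omega

theorem FinS.of_finite {L : Finset B} (h : (WP cs L : Set W).Finite) : FinS cs L := by
  obtain ⟨w, hw, hmax⟩ := Set.exists_max_image (WP cs L : Set W) cs.length h ⟨1, one_mem _⟩
  refine ⟨w, hw, fun r hr => ?_⟩
  rw [neg_iff]
  rcases cs.length_mul_simple w r with h1 | h1
  · have := hmax _ (simple_mul_mem cs hw hr)
    omega
  · exact h1

theorem FinS.mono {L L' : Finset B} (h : FinS cs L) (hs : L' ⊆ L) : FinS cs L' :=
  FinS.of_finite cs (h.finite.subset (WP_mono cs hs))

theorem FinS.union {A C : Finset B} (hA : FinS cs A) (hC : FinS cs C)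
    (h : ∀ a ∈ A, ∀ c ∈ C, M a c = 2) : FinS cs (A ∪ C) := by
  obtain ⟨a, ha, ha'⟩ := hA
  obtain ⟨c, hc, hc'⟩ := hC
  refine ⟨a * c, mul_mem (WP_mono cs Finset.subset_union_left ha)
    (WP_mono cs Finset.subset_union_right hc), fun r hr => ?_⟩
  rcases Finset.mem_union.1 hr with hr | hr
  · rw [rho_mul, rho_fix cs (fun x hx => by rw [M.symmetric]; exact h r hr x hx) hc]
    exact ha' r hr
  · rw [mul_comm_of cs h ha hc, rho_mul, rho_fix cs (fun x hx => h x hx r hr) ha]
    exact hc' r hr

theorem FinS.pair {s t : B} (hst : s ≠ t) (h0 : M s t ≠ 0) : FinS cs {s, t} := by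
  -- the longest element is the braid word
  have key : ∀ {s t : B}, s ≠ t → M s t ≠ 0 →
      rho cs (cs.wordProd (alternatingWord s t (M s t))) (al t) ≤ 0 := by
    intro s t hst h0
    obtain ⟨m, hm⟩ : ∃ m, M s t = m + 1 := ⟨M s t - 1, by omega⟩
    rw [hm, alternatingWord_succ, wordProd_concat, rho_mul_simple_al]
    obtain ⟨U, U0, U1, Urec, Upos, -⟩ := exists_U M (Ne.symm hst)
    rw [M.symmetric] at Upos
    have h1 : 0 ≤ U (m + 1) := Upos _ (Or.inr (by omega))
    have h2 : 0 ≤ U m := Upos _ (Or.inr (by omega))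
    rw [rho_alt cs U U0 U1 Urec]
    rw [neg_nonpos]
    split_ifs
    · exact add_nonneg (smul_nonneg h1 (al_nonneg _)) (smul_nonneg h2 (al_nonneg _))
    · exact add_nonneg (smul_nonneg h1 (al_nonneg _)) (smul_nonneg h2 (al_nonneg _))
  have hmem : ∀ (k : ℕ) (a b : B), a ∈ ({s, t} : Finset B) → b ∈ ({s, t} : Finset B) →
      cs.wordProd (alternatingWord a b k) ∈ WP cs {s, t} := by
    intro k
    induction k with
    | zero => intro a b _ _; simp [alternatingWord]
    | succ k ih =>
      intro a b ha hb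
      rw [alternatingWord_succ, wordProd_concat]
      exact simple_mul_mem cs (ih b a hb ha) hb
  refine ⟨cs.wordProd (alternatingWord s t (M s t)), hmem _ _ _ (by simp) (by simp), ?_⟩
  intro r hr
  rcases Finset.mem_insert.1 hr with rfl | hr
  · have h1 := cs.wordProd_braidWord_eq r t
    have h2 := key (Ne.symm hst) (by rw [M.symmetric]; exact h0)
    unfold braidWord at h1
    rw [h1]
    exact h2
  · rw [Finset.mem_singleton.1 hr]
    exact key hst h0

/-! ### the cone `K₀` -/

theorem K0_le {z : B → ℝ} (hB : ∀ t, fB M t z ≤ 0) (w : W) : z ≤ rho cs w z := by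
  induction hn : cs.length w using Nat.strong_induction_on generalizing w with
  | _ n ih =>
  subst hn
  by_cases hw : w = 1
  · subst hw; rw [rho_one]
  obtain ⟨s, hs⟩ := cs.exists_rightDescent_of_ne_one hw
  rw [isRightDescent_iff] at hs
  have h1 := ih _ (by omega) (w * cs.simple s) rfl
  have h2 : 0 ≤ rho cs (w * cs.simple s) (al s) :=
    tits_pos cs _ s (by rw [simple_mul_simple_cancel_right]; omega)
  have h3 : rho cs w z = rho cs (w * cs.simple s) z +
      (-(2 * fB M s z)) • rho cs (w * cs.simple s) (al s) := by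
    conv_lhs => rw [show w = (w * cs.simple s) * cs.simple s by simp]
    rw [rho_mul, rho_simple, sig_apply, map_sub, map_smul]
    module
  rw [h3]
  have h4 : 0 ≤ (-(2 * fB M s z)) • rho cs (w * cs.simple s) (al s) := by
    apply smul_nonneg _ h2
    linarith [hB s]
  exact le_add_of_le_of_nonneg h1 h4

theorem K0_false {z : B → ℝ} (hz : 0 ≤ z) (hz0 : z ≠ 0) (hB : ∀ t, fB M t z ≤ 0) {w : W}
    (h : rho cs w z ≤ 0) : False :=
  hz0 (le_antisymm ((K0_le cs hB w).trans h) hz)

/-- three-term elements of the cone `K₀` cannot be made negative -/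
theorem K0_three {a b c : B} (hab : a ≠ b) (hac : a ≠ c) (hbc : b ≠ c) {x y z : ℝ} (hx : 0 < x)
    (hy : 0 ≤ y) (hz : 0 ≤ z) (ha : x ≤ y * cc M a b + z * cc M a c)
    (hb : y ≤ x * cc M a b + z * cc M b c) (hc : z ≤ x * cc M a c + y * cc M b c) {w : W}
    (h : rho cs w (x • al a + y • al b + z • al c) ≤ 0) : False := by
  refine K0_false cs ?_ ?_ ?_ h
  · exact add_nonneg (add_nonneg (smul_nonneg hx.le (al_nonneg _)) (smul_nonneg hy (al_nonneg _)))
      (smul_nonneg hz (al_nonneg _))
  · intro h0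
    have := congrFun h0 a
    simp [al_self, al_ne hab, al_ne hac] at this
    linarith
  · intro t
    rw [map_add, map_add, map_smul, map_smul, map_smul, fB_al, fB_al, fB_al]
    simp only [smul_eq_mul]
    by_cases hta : t = a
    · subst hta
      rw [cc_self, cc_symm M b, cc_symm M c]; linarith
    by_cases htb : t = b
    · subst htb
      rw [cc_self, cc_symm M c]; linarith
    by_cases htc : t = c
    · subst htc
      rw [cc_self]; linarith
    have h1 := cc_nonneg M (Ne.symm hta)
    have h2 := cc_nonneg M (Ne.symm htb)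
    have h3 := cc_nonneg M (Ne.symm htc)
    nlinarith [mul_nonneg hx.le h1, mul_nonneg hy h2, mul_nonneg hz h3]

theorem K0_two {a b : B} (hab : a ≠ b) (h0 : M a b = 0) {w : W}
    (h : rho cs w (al a + al b) ≤ 0) : False := by
  refine K0_false cs (add_nonneg (al_nonneg _) (al_nonneg _)) ?_ ?_ h
  · intro h0
    have := congrFun h0 a
    simp [al_self, al_ne hab] at this
  · intro t
    rw [map_add, fB_al, fB_al]
    have h1 := cc_of_eq_zero M h0
    by_cases hta : t = a
    · subst hta
      rw [cc_self, cc_symm M b]; linarith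
    by_cases htb : t = b
    · subst htb
      rw [cc_self]; linarith
    have h2 := cc_nonneg M (Ne.symm hta)
    have h3 := cc_nonneg M (Ne.symm htb)
    linarith

end Pool.Agent.H80.Cox
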