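import Mathlib
import Pool.Agent.H80.Cox.Parabolic

set_option autoImplicit false
set_option linter.unusedSectionVars false
set_option linter.unusedSimpArgs false

/-! # Weight functions and shortest maximisers on standard parabolic subgroups -/

namespace Pool.Agent.H80.Cox

open CoxeterSystem

variable {B : Type*} [Fintype B] [DecidableEq B] {W : Type*} [Group W]
variable {M : CoxeterMatrix B} (cs : CoxeterSystem M W)

/-- weight functions: additive along reduced products -/
def IsWeight (φ : W → ℝ) : Prop :=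
  ∀ g h : W, cs.length (g * h) = cs.length g + cs.length h → φ (g * h) = φ g + φ h

variable {ψ : W → ℝ}

lemma IsWeight.one (h : IsWeight cs ψ) : ψ 1 = 0 := by
  have := h 1 1 (by simp)
  rw [mul_one] at this
  linarith

lemma IsWeight.mul_simple (h : IsWeight cs ψ) {w : W} {s : B}
    (hl : cs.length (w * cs.simple s) = cs.length w + 1) :
    ψ (w * cs.simple s) = ψ w + ψ (cs.simple s) :=
  h _ _ (by rw [hl, length_simple])

lemma IsWeight.simple_mul (h : IsWeight cs ψ) {w : W} {s : B}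
    (hl : cs.length (cs.simple s * w) = cs.length w + 1) :
    ψ (cs.simple s * w) = ψ (cs.simple s) + ψ w :=
  h _ _ (by rw [hl, length_simple, add_comm])

lemma IsWeight.inv (h : IsWeight cs ψ) (w : W) : ψ w⁻¹ = ψ w := by
  induction hn : cs.length w using Nat.strong_induction_on generalizing w with
  | _ n ih =>
  subst hn
  by_cases hw : w = 1
  · subst hw; simp
  obtain ⟨s, hs⟩ := cs.exists_rightDescent_of_ne_one hw
  rw [isRightDescent_iff] at hs
  have h1 := ih _ (by omega) (w * cs.simple s) rfl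
  have h2 := h.mul_simple cs (w := w * cs.simple s) (s := s)
    (by rw [simple_mul_simple_cancel_right]; omega)
  rw [simple_mul_simple_cancel_right] at h2
  have h3 : w⁻¹ = cs.simple s * (w * cs.simple s)⁻¹ := by simp
  have h4 := h.simple_mul cs (w := (w * cs.simple s)⁻¹) (s := s) (by
    rw [← h3, length_inv, length_inv]; omega)
  rw [← h3, h1] at h4
  linarith

/-- conjugate generators have the same weight -/
lemma IsWeight.odd (h : IsWeight cs ψ) {s t : B} (hodd : Odd (M s t)) :
    ψ (cs.simple s) = ψ (cs.simple t) := by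
  by_cases hst : s = t
  · rw [hst]
  obtain ⟨k, hk⟩ := hodd
  set v := cs.wordProd (alternatingWord s t (2 * k)) with hv
  have hvs : v * cs.simple s = cs.simple t * v := by
    have h1 := cs.wordProd_braidWord_eq s t
    unfold braidWord at h1
    rw [M.symmetric t s, hk] at h1
    have h2 : cs.wordProd (alternatingWord t s (2 * k + 1)) = v * cs.simple s := by
      rw [alternatingWord_succ, wordProd_concat]
    have h3 : cs.wordProd (alternatingWord s t (2 * k + 1)) = cs.simple t * v := by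
      rw [alternatingWord_succ', wordProd_cons]
      simp [hv]
    rw [← h2, ← h3, h1]
  have hl : cs.length (v * cs.simple s) = cs.length v + 1 := by
    rw [← pos_iff]
    obtain ⟨U, U0, U1, Urec, Upos, -⟩ := exists_U M hst
    have hU1 : 0 ≤ U (2 * k + 1) := Upos _ (Or.inr (by omega))
    have hU0 : 0 ≤ U (2 * k) := Upos _ (Or.inr (by omega))
    rw [hv, rho_alt cs U U0 U1 Urec]
    split_ifs
    · exact add_nonneg (smul_nonneg hU1 (al_nonneg _)) (smul_nonneg hU0 (al_nonneg _))
    · exact add_nonneg (smul_nonneg hU1 (al_nonneg _)) (smul_nonneg hU0 (al_nonneg _))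
  have e1 := h.mul_simple cs hl
  have e2 := h.simple_mul cs (w := v) (s := t) (by rw [← hvs, hl])
  rw [hvs] at e1
  linarith

/-- A positive and a nonpositive generator can only be joined by an even or infinite label. -/
lemma IsWeight.mixed (h : IsWeight cs ψ) {s t : B} (hs : 0 < ψ (cs.simple s))
    (ht : ¬ 0 < ψ (cs.simple t)) : s ≠ t ∧ (M s t = 2 ∨ M s t = 4 ∨ (M s t = 0 ∨ 6 ≤ M s t)) := by
  have hst : s ≠ t := by rintro rfl; exact ht hs
  refine ⟨hst, ?_⟩
  have h1 := M.off_diagonal s t hst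
  have h3 : M s t ≠ 3 := by
    intro h3
    have := h.odd cs (s := s) (t := t) (by rw [h3]; decide)
    rw [this] at hs; exact ht hs
  have h5 : M s t ≠ 5 := by
    intro h5
    have := h.odd cs (s := s) (t := t) (by rw [h5]; decide)
    rw [this] at hs; exact ht hs
  omega

lemma IsWeight.mixed_sq (h : IsWeight cs ψ) {s t : B} (hs : 0 < ψ (cs.simple s))
    (ht : ¬ 0 < ψ (cs.simple t)) (h2 : M s t ≠ 2) : 1 / 2 ≤ cc M s t ^ 2 := by
  apply half_le_cc_sq
  have := (h.mixed cs hs ht).2
  omega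

/-- `y` is a shortest maximiser of `ψ` on `W_K`. -/
structure IsMax (ψ : W → ℝ) (K : Finset B) (y : W) : Prop where
  mem : y ∈ WP cs K
  le : ∀ w ∈ WP cs K, ψ w ≤ ψ y
  len : ∀ w ∈ WP cs K, ψ w = ψ y → cs.length y ≤ cs.length w

variable {cs}

lemma IsMax.len' {K : Finset B} {y : W} (hy : IsMax cs ψ K y) {w : W} (hw : w ∈ WP cs K)
    (h : ψ y ≤ ψ w) : cs.length y ≤ cs.length w :=
  hy.len w hw (le_antisymm (hy.le w hw) h)

lemma IsMax.neg (hψ : IsWeight cs ψ) {K : Finset B} {y : W} (hy : IsMax cs ψ K y) {r : B}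
    (hr : r ∈ K) (hpos : 0 < ψ (cs.simple r)) : rho cs y (al r) ≤ 0 := by
  apply neg_of_not_pos
  intro h
  rw [pos_iff] at h
  have h1 := hψ.mul_simple cs h
  have h2 := hy.le _ (simple_mul_mem cs hy.mem hr)
  linarith

lemma IsMax.pos (hψ : IsWeight cs ψ) {K : Finset B} {y : W} (hy : IsMax cs ψ K y) {r : B}
    (hr : ¬ 0 < ψ (cs.simple r)) : 0 ≤ rho cs y (al r) := by
  apply pos_of_not_neg
  intro h
  have hrK : r ∈ K := desc_mem cs hy.mem h
  rw [neg_iff] at h
  have h1 := hψ.mul_simple cs (w := y * cs.simple r) (s := r)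
    (by rw [simple_mul_simple_cancel_right]; omega)
  rw [simple_mul_simple_cancel_right] at h1
  have h2 := hy.len' (simple_mul_mem cs hy.mem hrK) (by linarith)
  omega

lemma IsMax.inv (hψ : IsWeight cs ψ) {K : Finset B} {y : W} (hy : IsMax cs ψ K y) :
    IsMax cs ψ K y⁻¹ where
  mem := inv_mem hy.mem
  le := by
    intro w hw
    rw [hψ.inv]; exact hy.le w hw
  len := by
    intro w hw h
    rw [hψ.inv] at h
    rw [length_inv]; exact hy.len w hw h

lemma IsMax.part (hψ : IsWeight cs ψ) {K K' : Finset B} (hK : K' ⊆ K) {y v x : W}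
    (hy : IsMax cs ψ K y) (h : y = v * x) (hx : x ∈ WP cs K') (hv : ∀ r ∈ K', 0 ≤ rho cs v (al r)) :
    IsMax cs ψ K' x := by
  have hvm : v ∈ WP cs K := by
    have : v = y * x⁻¹ := by rw [h]; simp
    rw [this]
    exact mul_mem hy.mem (inv_mem (WP_mono cs hK hx))
  have key : ∀ w ∈ WP cs K', ψ (v * w) = ψ v + ψ w := fun w hw =>
    hψ _ _ (length_mul_of_pos cs hv hw)
  have hle : ∀ w ∈ WP cs K', ψ w ≤ ψ x := by
    intro w hw
    have h1 := hy.le (v * w) (mul_mem hvm (WP_mono cs hK hw))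
    rw [h, key w hw, key x hx] at h1
    linarith
  refine ⟨hx, hle, ?_⟩
  intro w hw hwx
  have h1 := hy.len (v * w) (mul_mem hvm (WP_mono cs hK hw)) (by rw [h, key w hw, key x hx, hwx])
  rw [h, length_mul_of_pos cs hv hw, length_mul_of_pos cs hv hx] at h1
  omega

/-- if no generator of `K` is a descent of `x ∈ W_K`, then `x = 1` -/
lemma eq_one_of_pos {K : Finset B} {x : W} (hx : x ∈ WP cs K)
    (h : ∀ r ∈ K, 0 ≤ rho cs x (al r)) : x = 1 := by
  by_contra hx1
  obtain ⟨s, hs⟩ := cs.exists_rightDescent_of_ne_one hx1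
  rw [isRightDescent_iff] at hs
  have h1 := tits_neg cs x s hs
  exact not_pos_and_neg cs (h s (desc_mem cs hx h1)) h1

/-- In a commuting decomposition a factor without positive generators does not contribute. -/
lemma IsMax.comm_drop (hψ : IsWeight cs ψ) {A C : Finset B} (hAC : ∀ a ∈ A, ∀ c ∈ C, M a c = 2)
    {y : W} (hy : IsMax cs ψ (A ∪ C) y) (hC : ∀ c ∈ C, ¬ 0 < ψ (cs.simple c)) : y ∈ WP cs A := by
  obtain ⟨a, ha, c, hc, rfl⟩ := exists_comm_dec cs hAC y hy.mem
  have h1 : IsMax cs ψ C c := by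
    apply IsMax.part hψ Finset.subset_union_right hy rfl hc
    intro r hr
    rw [rho_fix cs (fun x hx => hAC x hx r hr) ha]
    exact al_nonneg r
  have h2 : c = 1 := eq_one_of_pos hc (fun r hr => h1.pos hψ (hC r hr))
  rw [h2, mul_one]
  exact ha

lemma mem_WP_singleton {p : B} {w : W} (hw : w ∈ WP cs {p}) : w = 1 ∨ w = cs.simple p := by
  revert w
  apply WP_induction
  · left; rfl
  · intro w _ s hs _ ih
    rw [Finset.mem_singleton] at hs
    subst hs
    rcases ih with ih | ih
    · right; rw [ih, one_mul]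
    · left; rw [ih]; simp

/-- existence of shortest maximisers -/
lemma exists_isMax (hψ : IsWeight cs ψ) (hfin : {w : W | 0 ≤ ψ w}.Finite) (K : Finset B) :
    ∃ y, IsMax cs ψ K y := by
  have hf : ((WP cs K : Set W) ∩ {w : W | 0 ≤ ψ w}).Finite := hfin.subset Set.inter_subset_right
  have h1 : (1 : W) ∈ ((WP cs K : Set W) ∩ {w : W | 0 ≤ ψ w}) :=
    ⟨one_mem _, by show 0 ≤ ψ 1; rw [hψ.one]⟩
  obtain ⟨z, hz, hzmax⟩ := Set.exists_max_image _ ψ hf ⟨1, h1⟩
  have hf2 : ((WP cs K : Set W) ∩ {w : W | ψ w = ψ z}).Finite := by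
    apply hf.subset
    rintro w ⟨hw1, hw2⟩
    refine ⟨hw1, ?_⟩
    show 0 ≤ ψ w
    rw [show ψ w = ψ z from hw2]
    exact hz.2
  obtain ⟨y, hy, hymin⟩ := Set.exists_min_image _ cs.length hf2 ⟨z, hz.1, rfl⟩
  have hy2 : ψ y = ψ z := hy.2
  refine ⟨y, hy.1, ?_, ?_⟩
  · intro w hw
    rw [hy2]
    by_cases hw0 : 0 ≤ ψ w
    · exact hzmax w ⟨hw, hw0⟩
    · have : 0 ≤ ψ z := hz.2
      linarith
  · intro w hw hwy
    exact hymin w ⟨hw, by show ψ w = ψ z; rw [hwy, hy2]⟩

end Pool.Agent.H80.Cox
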