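import Mathlib
import Pool.Agent.H80.Cox.Max

set_option autoImplicit false
set_option linter.unusedSectionVars false
set_option linter.unusedSimpArgs false

/-! # The core configuration `K = L ∪ {s}` -/

namespace Pool.Agent.H80.Cox

open CoxeterSystem

variable {B : Type*} [Fintype B] [DecidableEq B] {W : Type*} [Group W]
variable {M : CoxeterMatrix B} (cs : CoxeterSystem M W)

/-- No `B₃` subdiagram with generators of mixed sign. -/
def NoMixedB3 (ψ : W → ℝ) : Prop :=
  ∀ x y z : B, M x y = 3 → M y z = 4 → M x z = 2 →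
    (0 < ψ (cs.simple y) ↔ 0 < ψ (cs.simple z))

/-- The minimal counterexample configuration. -/
structure Core (ψ : W → ℝ) (L : Finset B) (s : B) (y g m u c : W) : Prop where
  wt : IsWeight cs ψ
  b3 : NoMixedB3 cs ψ
  sL : s ∉ L
  mx : IsMax cs ψ (insert s L) y
  fin : FinS cs L
  ns : ¬ 0 < ψ (cs.simple s)
  dec : y = g * m
  mm : m ∈ WP cs L
  gp : ∀ r ∈ L, 0 ≤ rho cs g (al r)
  g1 : g ≠ 1
  full : ∀ r ∈ L, m ∉ WP cs (L.erase r)
  irr : ∀ A C : Finset B, A ∪ C = insert s L → A.Nonempty → C.Nonempty →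
    ¬ ∀ a ∈ A, ∀ c ∈ C, M a c = 2
  nfin : ¬ FinS cs (insert s L)
  dec2 : y = u * c
  cm : c ∈ WP cs (L.filter fun r => M r s = 2)
  up : ∀ r ∈ L, M r s = 2 → 0 ≤ rho cs u (al r)

variable {cs}
variable {ψ : W → ℝ} {L : Finset B} {s : B} {y g m u c : W}

lemma fin_three {L : Finset B} (hfin : FinS cs L) {a b c : B} (ha : a ∈ L) (hb : b ∈ L)
    (hc : c ∈ L) (hab : a ≠ b) (hac : a ≠ c) (hbc : b ≠ c) {x y z : ℝ} (hx : 0 < x) (hy : 0 ≤ y)
    (hz : 0 ≤ z) (h1 : x ≤ y * cc M a b + z * cc M a c) (h2 : y ≤ x * cc M a b + z * cc M b c)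
    (h3 : z ≤ x * cc M a c + y * cc M b c) : False := by
  obtain ⟨w, _, hw⟩ := hfin
  refine K0_three cs hab hac hbc hx hy hz h1 h2 h3 (w := w) ?_
  rw [map_add, map_add, map_smul, map_smul, map_smul]
  exact add_nonpos (add_nonpos (smul_nonpos_of_nonneg_of_nonpos hx.le (hw a ha))
    (smul_nonpos_of_nonneg_of_nonpos hy (hw b hb))) (smul_nonpos_of_nonneg_of_nonpos hz (hw c hc))

/-- A mixed edge inside a spherical set is isolated (in the absence of mixed `B₃`). -/
lemma mixed_aux {L : Finset B} (hfin : FinS cs L) (hb3 : NoMixedB3 cs ψ)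
    {a b u : B} (ha : a ∈ L) (hb : b ∈ L) (hu : u ∈ L) (hua : u ≠ a) (hub : u ≠ b) (hab : a ≠ b)
    (hM : M a b = 4 ∨ (M a b = 0 ∨ 6 ≤ M a b)) (hmix : ¬ (0 < ψ (cs.simple a) ↔ 0 < ψ (cs.simple b)))
    (hau : M a u ≠ 2) : False := by
  have hc1 : 1 / 2 ≤ cc M a b ^ 2 := half_le_cc_sq M (by omega)
  have hc1' : 0 ≤ cc M a b := cc_nonneg M hab
  have hc1'' : cc M a b ≤ 1 := cc_le_one M _ _
  have hc2 : 1 / 2 ≤ cc M a u := half_le_cc M (Ne.symm hua) hau
  have hc3 : 0 ≤ cc M b u := cc_nonneg M (Ne.symm hub)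
  by_cases h : 1 ≤ cc M a b ^ 2 + cc M a u ^ 2
  · refine fin_three hfin ha hb hu hab (Ne.symm hua) (Ne.symm hub) (x := 1) (y := cc M a b)
      (z := cc M a u) (by norm_num) hc1' (by linarith) ?_ ?_ ?_
    · nlinarith
    · nlinarith
    · nlinarith
  · push Not at h
    have h4 : M a b = 4 := by
      rcases hM with h4 | h6
      · exact h4
      · have := threequarters_le_cc_sq M h6
        nlinarith
    have h3 : M a u = 3 := by
      by_contra h3
      have h1 := M.off_diagonal a u (Ne.symm hua)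
      have := half_le_cc_sq M (s := a) (t := u) (by omega)
      nlinarith
    by_cases hbu : M u b = 2
    · exact hmix (hb3 u a b (by rw [M.symmetric]; exact h3) h4 hbu)
    · have h5 : 1 / 2 ≤ cc M b u := half_le_cc M (Ne.symm hub) (by rw [M.symmetric]; exact hbu)
      have h6 : 1 / 2 ≤ cc M a b := by nlinarith
      refine fin_three hfin ha hb hu hab (Ne.symm hua) (Ne.symm hub) (x := 1) (y := 1)
        (z := 1) (by norm_num) (by norm_num) (by norm_num) ?_ ?_ ?_ <;> linarith

namespace Core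

variable (h : Core cs ψ L s y g m u c)
include h

/-- (F1) -/
lemma F1 {p t v : B} (hp : p ∈ L) (pp : 0 < ψ (cs.simple p)) (ht : t ∈ L)
    (nt : ¬ 0 < ψ (cs.simple t)) (hpt : M p t ≠ 2) (hv : v ∈ L) (hvp : v ≠ p) (hvt : v ≠ t) :
    M v p = 2 ∧ M v t = 2 := by
  obtain ⟨hpt', hM⟩ := h.wt.mixed cs pp nt
  have hM' := hM.resolve_left hpt
  constructor
  · by_contra hcon
    exact mixed_aux h.fin h.b3 hp ht hv hvp hvt hpt' hM' (by tauto)
      (by rw [M.symmetric]; exact hcon)
  · by_contra hcon
    exact mixed_aux h.fin h.b3 ht hp hv hvt hvp (Ne.symm hpt')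
      (by rw [M.symmetric t p]; exact hM') (by tauto) (by rw [M.symmetric]; exact hcon)

lemma mxL : IsMax cs ψ L m :=
  h.mx.part h.wt (Finset.subset_insert _ _) h.dec h.mm h.gp

/-- (F1') -/
lemma partner {t : B} (ht : t ∈ L) (nt : ¬ 0 < ψ (cs.simple t)) :
    ∃ p ∈ L, 0 < ψ (cs.simple p) ∧ M p t ≠ 2 := by
  classical
  by_contra hcon
  push Not at hcon
  set T := L.filter (fun t => ¬ 0 < ψ (cs.simple t) ∧ ∀ p ∈ L, 0 < ψ (cs.simple p) → M p t = 2)
    with hT
  have htT : t ∈ T := by
    rw [hT, Finset.mem_filter]; exact ⟨ht, nt, hcon⟩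
  have hL : (L \ T) ∪ T = L := Finset.sdiff_union_of_subset (Finset.filter_subset _ _)
  have hcomm : ∀ a ∈ L \ T, ∀ c ∈ T, M a c = 2 := by
    intro a ha t' ht'
    rw [Finset.mem_sdiff] at ha
    have hmem := ht'
    rw [hT, Finset.mem_filter] at ht'
    obtain ⟨ht'L, nt', hp'⟩ := ht'
    by_cases pa : 0 < ψ (cs.simple a)
    · exact hp' a ha.1 pa
    · have hnot : ¬ ∀ p ∈ L, 0 < ψ (cs.simple p) → M p a = 2 := by
        intro hall
        apply ha.2
        rw [hT, Finset.mem_filter]; exact ⟨ha.1, pa, hall⟩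
      push Not at hnot
      obtain ⟨p, hpL, pp, hpa⟩ := hnot
      have := (h.F1 hpL pp ha.1 pa hpa ht'L (by rintro rfl; exact nt' pp)
        (by rintro rfl; exact ha.2 hmem)).2
      rw [M.symmetric]; exact this
  have h1 : IsMax cs ψ (L \ T ∪ T) m := by rw [hL]; exact h.mxL
  have h2 := h1.comm_drop h.wt hcomm (fun c hc => by
    rw [hT, Finset.mem_filter] at hc; exact hc.2.1)
  refine h.full t ht (WP_mono cs ?_ h2)
  intro x hx
  rw [Finset.mem_sdiff] at hx
  rw [Finset.mem_erase]
  exact ⟨by rintro rfl; exact hx.2 htT, hx.1⟩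

/-- (C1) -/
lemma C1 {p q : B} (hp : p ∈ L) (pp : 0 < ψ (cs.simple p)) (hq : q ∈ L)
    (nq : ¬ 0 < ψ (cs.simple q)) (hpq : M p q ≠ 2) (h1 : M p s = 2) (h2 : M q s = 2) : False := by
  refine h.irr {p, q} (insert s L \ {p, q}) ?_ ⟨p, by simp⟩ ⟨s, ?_⟩ ?_
  · apply Finset.union_sdiff_of_subset
    intro x hx
    rcases Finset.mem_insert.1 hx with rfl | hx
    · exact Finset.mem_insert_of_mem hp
    · rw [Finset.mem_singleton.1 hx]; exact Finset.mem_insert_of_mem hq
  · rw [Finset.mem_sdiff]
    refine ⟨Finset.mem_insert_self _ _, ?_⟩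
    intro hx
    rcases Finset.mem_insert.1 hx with hx | hx
    · exact h.sL (by rw [hx]; exact hp)
    · exact h.sL (by rw [Finset.mem_singleton.1 hx]; exact hq)
  · intro a ha v hv
    rw [Finset.mem_sdiff, Finset.mem_insert, Finset.mem_insert, Finset.mem_singleton] at hv
    rw [Finset.mem_insert, Finset.mem_singleton] at ha
    push Not at hv
    obtain ⟨hv1, hvp, hvq⟩ := hv
    rcases hv1 with rfl | hvL
    · rcases ha with rfl | rfl
      · exact h1
      · exact h2
    · have := h.F1 hp pp hq nq hpq hvL hvp hvq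
      rcases ha with rfl | rfl
      · rw [M.symmetric]; exact this.1
      · rw [M.symmetric]; exact this.2

lemma mx0 : IsMax cs ψ (L.filter fun r => M r s = 2) c := by
  refine h.mx.part h.wt ?_ h.dec2 h.cm ?_
  · exact (Finset.filter_subset _ _).trans (Finset.subset_insert _ _)
  · intro r hr
    rw [Finset.mem_filter] at hr
    exact h.up r hr.1 hr.2

/-- (F3) -/
lemma F3 : c ∈ WP cs (L.filter fun r => M r s = 2 ∧ 0 < ψ (cs.simple r)) := by
  classical
  set A := L.filter (fun r => M r s = 2 ∧ 0 < ψ (cs.simple r)) with hA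
  set C := L.filter (fun r => M r s = 2 ∧ ¬ 0 < ψ (cs.simple r)) with hC
  have hAC : A ∪ C = L.filter fun r => M r s = 2 := by
    ext r
    rw [Finset.mem_union, hA, hC, Finset.mem_filter, Finset.mem_filter, Finset.mem_filter]
    tauto
  have hcomm : ∀ a ∈ A, ∀ t ∈ C, M a t = 2 := by
    intro a ha t ht
    rw [hA, Finset.mem_filter] at ha
    rw [hC, Finset.mem_filter] at ht
    by_contra hcon
    exact h.C1 ha.1 ha.2.2 ht.1 ht.2.2 hcon ha.2.1 ht.2.1
  have h1 : IsMax cs ψ (A ∪ C) c := by rw [hAC]; exact h.mx0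
  exact h1.comm_drop h.wt hcomm (fun t ht => by
    rw [hC, Finset.mem_filter] at ht; exact ht.2.2)

lemma rho_u (x : B → ℝ) : rho cs u x = rho cs y (rho cs c⁻¹ x) := by
  rw [← rho_mul]
  congr 2
  rw [h.dec2]; simp

lemma y_neg {r : B} (hr : r ∈ L) (pr : 0 < ψ (cs.simple r)) : rho cs y (al r) ≤ 0 :=
  h.mx.neg h.wt (Finset.mem_insert_of_mem hr) pr

/-- general principle behind (F4) -/
lemma G {A : Finset B} (hA : A ⊆ L) (hAp : ∀ a ∈ A, 0 < ψ (cs.simple a)) {r : B} (hr : r ∈ L)
    (pr : 0 < ψ (cs.simple r)) (hrA : r ∉ A) {z : W} (hz : z ∈ WP cs A) :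
    rho cs y (rho cs z (al r)) ≤ 0 := by
  have h1 : rho cs z (al r) r = 1 := by rw [rho_coord cs hz _ hrA, al_self]
  have h2 : 0 ≤ rho cs z (al r) := by
    apply pos_of_not_neg
    intro hneg
    have := hneg r
    rw [h1] at this
    simp at this
    linarith
  refine comb_nonpos cs (K := insert r A) (fun t ht => ?_) h2 ?_
  · rcases Finset.mem_insert.1 ht with rfl | ht
    · exact h.y_neg hr pr
    · exact h.y_neg (hA ht) (hAp t ht)
  · intro i hi
    rw [Finset.mem_insert, not_or] at hi
    rw [rho_coord cs hz _ hi.2]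
    exact al_ne hi.1

/-- (F4), first part -/
lemma F4a {r t : B} (hr : r ∈ L) (pr : 0 < ψ (cs.simple r)) (hrs : M r s ≠ 2) (ht : t ∈ L)
    (pt : 0 < ψ (cs.simple t)) (htr : t ≠ r) : rho cs u (rho cs (cs.simple t) (al r)) ≤ 0 := by
  classical
  rw [h.rho_u, ← rho_mul cs c⁻¹]
  refine h.G (A := (L.filter fun r => 0 < ψ (cs.simple r)).erase r) ?_ ?_ hr pr
    (Finset.notMem_erase _ _) ?_
  · exact (Finset.erase_subset _ _).trans (Finset.filter_subset _ _)
  · intro a ha
    exact (Finset.mem_filter.1 (Finset.mem_of_mem_erase ha)).2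
  · apply mul_mem
    · apply inv_mem
      refine WP_mono cs ?_ h.F3
      intro x hx
      rw [Finset.mem_filter] at hx
      rw [Finset.mem_erase, Finset.mem_filter]
      exact ⟨by rintro rfl; exact hrs hx.2.1, hx.1, hx.2.2⟩
    · apply simple_mem
      rw [Finset.mem_erase, Finset.mem_filter]
      exact ⟨htr, ht, pt⟩

/-- (F4), second part -/
lemma F4b {t : B} (ht : t ∈ L) (pt : 0 < ψ (cs.simple t)) (hts : M t s ≠ 2) :
    rho cs u (al t) ≤ 0 := by
  rw [h.rho_u]
  refine h.G (A := L.filter fun r => M r s = 2 ∧ 0 < ψ (cs.simple r)) (Finset.filter_subset _ _)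
    ?_ ht pt ?_ (inv_mem h.F3)
  · intro a ha
    exact (Finset.mem_filter.1 ha).2.2
  · intro hx
    exact hts (Finset.mem_filter.1 hx).2.1

/-- (F5) -/
lemma F5 {p q : B} (hp : p ∈ L) (pp : 0 < ψ (cs.simple p)) (hq : q ∈ L)
    (nq : ¬ 0 < ψ (cs.simple q)) (hpq : M p q ≠ 2) :
    rho cs y (rho cs (cs.simple q) (al p)) ≤ 0 := by
  classical
  have hne : p ≠ q := by rintro rfl; exact nq pp
  set R := L \ {p, q} with hR
  have hsub : ({p, q} : Finset B) ⊆ L := by
    intro x hx
    rcases Finset.mem_insert.1 hx with rfl | hx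
    · exact hp
    · rw [Finset.mem_singleton.1 hx]; exact hq
  have hL : ({p, q} : Finset B) ∪ R = L := Finset.union_sdiff_of_subset hsub
  have hcomm : ∀ a ∈ ({p, q} : Finset B), ∀ v ∈ R, M a v = 2 := by
    intro a ha v hv
    rw [hR, Finset.mem_sdiff, Finset.mem_insert, Finset.mem_singleton] at hv
    rw [Finset.mem_insert, Finset.mem_singleton] at ha
    push Not at hv
    have := h.F1 hp pp hq nq hpq hv.1 hv.2.1 hv.2.2
    rcases ha with rfl | rfl
    · rw [M.symmetric]; exact this.1
    · rw [M.symmetric]; exact this.2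
  obtain ⟨v, hv, b, hb, hmvb⟩ := exists_comm_dec cs hcomm m (by rw [hL]; exact h.mm)
  have hmbv : m = b * v := by rw [hmvb]; exact mul_comm_of cs hcomm hv hb
  have hy : y = (g * b) * v := by rw [h.dec, hmbv, mul_assoc]
  have hgb : ∀ r ∈ ({p, q} : Finset B), 0 ≤ rho cs (g * b) (al r) := by
    intro r hr
    rw [rho_mul, rho_fix cs (fun x hx => by rw [M.symmetric]; exact hcomm r hr x hx) hb]
    exact h.gp r (hsub hr)
  have hvmax : IsMax cs ψ {p, q} v :=
    h.mx.part h.wt (hsub.trans (Finset.subset_insert _ _)) hy hv hgb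
  -- v is not p
  have hvp : v ≠ cs.simple p := by
    intro hvp
    apply h.full q hq
    rw [hmvb, hvp]
    apply mul_mem
    · apply simple_mem
      rw [Finset.mem_erase]; exact ⟨hne, hp⟩
    · refine WP_mono cs ?_ hb
      intro x hx
      rw [hR, Finset.mem_sdiff, Finset.mem_insert, Finset.mem_singleton, not_or] at hx
      rw [Finset.mem_erase]; exact ⟨hx.2.2, hx.1⟩
  have h1 : rho cs v (al p) ≤ 0 := hvmax.neg h.wt (by simp) pp
  rw [neg_iff] at h1
  set v1 := v * cs.simple p with hv1
  have hv1v : v = v1 * cs.simple p := by rw [hv1]; simp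
  have hv11 : v1 ≠ 1 := by
    intro h0
    apply hvp
    rw [hv1v, h0, one_mul]
  have hv1m : v1 ∈ WP cs {p, q} := simple_mul_mem cs hv (by simp)
  obtain ⟨r, hr⟩ := cs.exists_rightDescent_of_ne_one hv11
  rw [isRightDescent_iff] at hr
  have hrpq := desc_mem cs hv1m (tits_neg cs v1 r hr)
  have hrq : r = q := by
    rcases Finset.mem_insert.1 hrpq with rfl | hrq
    · exfalso
      rw [← hv1v] at hr
      omega
    · exact Finset.mem_singleton.1 hrq
  subst hrq
  set v2 := v1 * cs.simple r with hv2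
  have hv2v : v1 = v2 * cs.simple r := by rw [hv2]; simp
  have hv2m : v2 ∈ WP cs {p, r} := simple_mul_mem cs hv1m (by simp)
  have e1 : ψ v = ψ v1 + ψ (cs.simple p) := by
    have := h.wt.mul_simple cs (w := v1) (s := p) (by rw [← hv1v]; omega)
    rwa [← hv1v] at this
  have e2 : ψ v1 = ψ v2 + ψ (cs.simple r) := by
    have := h.wt.mul_simple cs (w := v2) (s := r) (by rw [← hv2v]; omega)
    rwa [← hv2v] at this
  have hneg : rho cs v (rho cs (cs.simple r) (al p)) ≤ 0 := by
    rw [← rho_mul]
    apply neg_of_not_pos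
    intro hpos
    rw [pos_iff] at hpos
    have h3 : 0 ≤ rho cs v (al r) := hvmax.pos h.wt nq
    rw [pos_iff] at h3
    have e3 := h.wt.mul_simple cs h3
    have e4 := h.wt.mul_simple cs hpos
    have h4 := hvmax.le (v * cs.simple r * cs.simple p)
      (simple_mul_mem cs (simple_mul_mem cs hv (by simp)) (by simp))
    have h5 := hvmax.len' hv2m (by linarith)
    omega
  rw [hy, rho_mul]
  have h6 : 0 ≤ - rho cs v (rho cs (cs.simple r) (al p)) := neg_nonneg.2 hneg
  have h7 := comb_nonneg cs hgb h6 (by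
    intro i hi
    rw [Pi.neg_apply, ← rho_mul]
    rw [supp_rho cs (simple_mul_mem cs hv (by simp)) (by simp) i hi, neg_zero])
  rw [map_neg] at h7
  exact neg_nonneg.1 h7

/-- (F5), second part -/
lemma F5b {p q : B} (hp : p ∈ L) (pp : 0 < ψ (cs.simple p)) (hq : q ∈ L)
    (nq : ¬ 0 < ψ (cs.simple q)) (hpq : M p q ≠ 2) (hps : M p s ≠ 2) :
    rho cs u (rho cs (cs.simple q) (al p)) ≤ 0 := by
  have hF : ∀ {v : B}, v ∈ L → v ≠ p → v ≠ q → M v p = 2 ∧ M v q = 2 :=
    fun hv => h.F1 hp pp hq nq hpq hv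
  have hA : ∀ a ∈ L.filter (fun r => M r s = 2 ∧ 0 < ψ (cs.simple r)), M a p = 2 ∧ M a q = 2 := by
    intro a ha
    rw [Finset.mem_filter] at ha
    exact hF ha.1 (by rintro rfl; exact hps ha.2.1) (by rintro rfl; exact nq ha.2.2)
  rw [h.rho_u, ← rho_mul cs c⁻¹, mul_simple_comm cs (fun a ha => (hA a ha).2) (inv_mem h.F3), rho_mul,
    rho_fix cs (fun a ha => (hA a ha).1) (inv_mem h.F3)]
  exact h.F5 hp pp hq nq hpq

/-- (F6) -/
lemma F6 {p q : B} (hp : p ∈ L) (pp : 0 < ψ (cs.simple p)) (hq : q ∈ L)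
    (nq : ¬ 0 < ψ (cs.simple q)) (hpq : M p q ≠ 2) (hps : M p s = 2) :
    rho cs u (rho cs (cs.simple p) (rho cs (cs.simple q) (al p))) ≤ 0 ∧ rho cs u (al q) ≤ 0 := by
  classical
  have hF : ∀ {v : B}, v ∈ L → v ≠ p → v ≠ q → M v p = 2 ∧ M v q = 2 :=
    fun hv => h.F1 hp pp hq nq hpq hv
  have hne : p ≠ q := by rintro rfl; exact nq pp
  set A := L.filter (fun r => M r s = 2 ∧ 0 < ψ (cs.simple r)) with hAdef
  have hpA : p ∈ A := by rw [hAdef, Finset.mem_filter]; exact ⟨hp, hps, pp⟩
  have hA : ∀ a ∈ A.erase p, M a p = 2 ∧ M a q = 2 := by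
    intro a ha
    have ha1 := Finset.mem_filter.1 (Finset.mem_of_mem_erase ha)
    exact hF ha1.1 (Finset.ne_of_mem_erase ha) (by rintro rfl; exact nq ha1.2.2)
  have hAu : ({p} : Finset B) ∪ A.erase p = A := by
    rw [← Finset.insert_eq, Finset.insert_erase hpA]
  obtain ⟨a, ha, b, hb, hcab⟩ := exists_comm_dec cs (A := {p}) (C := A.erase p)
    (fun x hx t ht => by
      rw [Finset.mem_singleton.1 hx, M.symmetric]; exact (hA t ht).1) c (by
      rw [hAu]; exact h.F3)
  have hcneg : rho cs c (al p) ≤ 0 :=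
    h.mx0.neg h.wt (by rw [Finset.mem_filter]; exact ⟨hp, hps⟩) pp
  have hap : a = cs.simple p := by
    rcases mem_WP_singleton ha with ha1 | ha1
    · exfalso
      rw [hcab, ha1, one_mul, rho_fix cs (fun a ha => (hA a ha).1) hb] at hcneg
      have := hcneg p
      rw [al_self] at this
      simp at this
      linarith
    · exact ha1
  have hcinv : c⁻¹ = b⁻¹ * cs.simple p := by rw [hcab, hap]; simp
  have hbi := inv_mem hb
  have k1 : b⁻¹ * cs.simple q = cs.simple q * b⁻¹ := mul_simple_comm cs (fun a ha => (hA a ha).2) hbi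
  have k2 : b⁻¹ * cs.simple p = cs.simple p * b⁻¹ := mul_simple_comm cs (fun a ha => (hA a ha).1) hbi
  have k3 : rho cs b⁻¹ (al p) = al p := rho_fix cs (fun a ha => (hA a ha).1) hbi
  have k4 : rho cs b⁻¹ (al q) = al q := rho_fix cs (fun a ha => (hA a ha).2) hbi
  have hF5 := h.F5 hp pp hq nq hpq
  constructor
  · rw [h.rho_u, ← rho_mul cs (cs.simple p), ← rho_mul cs c⁻¹, hcinv]
    rw [show b⁻¹ * cs.simple p * (cs.simple p * cs.simple q) = b⁻¹ * cs.simple q by
      rw [mul_assoc, simple_mul_simple_cancel_left]]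
    rw [k1, rho_mul, k3]
    exact hF5
  · rw [h.rho_u, hcinv, k2, rho_mul, k4, rho_simple, sig_al]
    have hyp := h.y_neg hp pp
    rw [rho_simple, sig_al, map_add, map_smul] at hF5
    rw [map_add, map_smul]
    have hc0 : 1 / 2 ≤ cc M p q := half_le_cc M hne hpq
    have hcs : cc M q p = cc M p q := cc_symm M _ _
    rw [hcs]
    have e : rho cs y (al q) + (2 * cc M p q) • rho cs y (al p) =
        (1 / (2 * cc M p q)) • (rho cs y (al p) + (2 * cc M p q) • rho cs y (al q)) +
        (2 * cc M p q - 1 / (2 * cc M p q)) • rho cs y (al p) := by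
      have : cc M p q ≠ 0 := by linarith
      rw [smul_add, smul_smul]
      have e1 : 1 / (2 * cc M p q) * (2 * cc M p q) = 1 := by field_simp
      rw [e1]
      module
    rw [e]
    apply add_nonpos
    · exact smul_nonpos_of_nonneg_of_nonpos (by positivity) hF5
    · refine smul_nonpos_of_nonneg_of_nonpos ?_ hyp
      rw [sub_nonneg, div_le_iff₀ (by positivity)]
      nlinarith

lemma ls_ne {r : B} (hr : r ∈ L) : r ≠ s := by rintro rfl; exact h.sL hr

/-- vector `α_r + 2 c_l α_s + 2 c_l c_st α_t` -/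
lemma T1 {r t : B} (hr : r ∈ L) (ht : t ∈ L) (htr : t ≠ r) (hl : 1 / 2 ≤ cc M r s ^ 2)
    (hst : 1 / 2 ≤ cc M t s ^ 2) (hu1 : rho cs u (rho cs (cs.simple s) (al r)) ≤ 0)
    (hu2 : rho cs u (al t) ≤ 0) : False := by
  have hrs := h.ls_ne hr
  have hts := h.ls_ne ht
  have c1 : 0 ≤ cc M r s := cc_nonneg M hrs
  have c2 : 0 ≤ cc M t s := cc_nonneg M hts
  have c3 : 0 ≤ cc M t r := cc_nonneg M htr
  have e1 : cc M s t = cc M t s := cc_symm M _ _
  have e2 : cc M r t = cc M t r := cc_symm M _ _
  refine K0_three cs (a := r) (b := s) (c := t) hrs (Ne.symm htr) (Ne.symm hts) (x := 1)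
    (y := 2 * cc M r s) (z := 2 * cc M r s * cc M t s) (by norm_num) (by positivity)
    (by positivity) ?_ ?_ ?_ (w := u) ?_
  · rw [e2]; nlinarith [mul_nonneg (mul_nonneg c1 c2) c3]
  · rw [e1]; nlinarith [mul_nonneg c1 c2, mul_nonneg c1 (sub_nonneg.2 hst)]
  · rw [e1, e2]; nlinarith [mul_nonneg c1 c2]
  · have e3 : rho cs u ((1 : ℝ) • al r + (2 * cc M r s) • al s + (2 * cc M r s * cc M t s) • al t) =
        rho cs u (rho cs (cs.simple s) (al r)) + (2 * cc M r s * cc M t s) • rho cs u (al t) := by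
      rw [rho_simple, sig_al]
      simp only [map_add, map_smul]
      module
    rw [e3]
    exact add_nonpos hu1 (smul_nonpos_of_nonneg_of_nonpos (by positivity) hu2)

/-- vector `α_r + c_rt α_t + c_l α_s` -/
lemma T2 {r t : B} (hr : r ∈ L) (ht : t ∈ L) (htr : t ≠ r)
    (hl : 1 ≤ cc M r t ^ 2 + cc M r s ^ 2) (hu1 : rho cs u (rho cs (cs.simple s) (al r)) ≤ 0)
    (hu2 : rho cs u (rho cs (cs.simple t) (al r)) ≤ 0) : False := by
  have hrs := h.ls_ne hr
  have hts := h.ls_ne ht
  have c1 : 0 ≤ cc M r s := cc_nonneg M hrs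
  have c2 : 0 ≤ cc M t s := cc_nonneg M hts
  have c3 : 0 ≤ cc M r t := cc_nonneg M (Ne.symm htr)
  refine K0_three cs (a := r) (b := t) (c := s) (Ne.symm htr) hrs hts (x := 1)
    (y := cc M r t) (z := cc M r s) (by norm_num) (by positivity)
    (by positivity) ?_ ?_ ?_ (w := u) ?_
  · nlinarith
  · nlinarith [mul_nonneg c1 c2]
  · nlinarith [mul_nonneg c3 c2]
  · have e3 : rho cs u ((1 : ℝ) • al r + (cc M r t) • al t + (cc M r s) • al s) =
        (1 / 2 : ℝ) • rho cs u (rho cs (cs.simple s) (al r)) +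
        (1 / 2 : ℝ) • rho cs u (rho cs (cs.simple t) (al r)) := by
      rw [rho_simple, rho_simple, sig_al, sig_al]
      simp only [map_add, map_smul]
      module
    rw [e3]
    exact add_nonpos (smul_nonpos_of_nonneg_of_nonpos (by norm_num) hu1)
      (smul_nonpos_of_nonneg_of_nonpos (by norm_num) hu2)

/-- vector `(3/2) α_r + 2 c_l α_s + c_l α_t` -/
lemma T3 {r t : B} (hr : r ∈ L) (ht : t ∈ L) (htr : t ≠ r) (hl : 3 / 4 ≤ cc M r s ^ 2)
    (hst : M t s = 3) (hu1 : rho cs u (rho cs (cs.simple s) (al r)) ≤ 0)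
    (hu2 : rho cs u (al t) ≤ 0) (hu3 : rho cs u (al r) ≤ 0) : False := by
  have hrs := h.ls_ne hr
  have hts := h.ls_ne ht
  have c1 : 0 ≤ cc M r s := cc_nonneg M hrs
  have c2 : cc M t s = 1 / 2 := cc_of_eq_three M hst
  have c3 : 0 ≤ cc M t r := cc_nonneg M htr
  have e1 : cc M s t = 1 / 2 := by rw [cc_symm]; exact c2
  have e2 : cc M r t = cc M t r := cc_symm M _ _
  refine K0_three cs (a := r) (b := s) (c := t) hrs (Ne.symm htr) (Ne.symm hts) (x := 3 / 2)
    (y := 2 * cc M r s) (z := cc M r s) (by norm_num) (by positivity)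
    (by positivity) ?_ ?_ ?_ (w := u) ?_
  · rw [e2]; nlinarith [mul_nonneg c1 c3]
  · rw [e1]; nlinarith
  · rw [e1, e2]; nlinarith
  · have e3 : rho cs u ((3 / 2 : ℝ) • al r + (2 * cc M r s) • al s + (cc M r s) • al t) =
        rho cs u (rho cs (cs.simple s) (al r)) + (1 / 2 : ℝ) • rho cs u (al r) +
        (cc M r s) • rho cs u (al t) := by
      rw [rho_simple, sig_al]
      simp only [map_add, map_smul]
      module
    rw [e3]
    exact add_nonpos (add_nonpos hu1 (smul_nonpos_of_nonneg_of_nonpos (by norm_num) hu3))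
      (smul_nonpos_of_nonneg_of_nonpos c1 hu2)

/-- Case α -/
lemma alpha {r : B} (hr : r ∈ L) (pr : 0 < ψ (cs.simple r)) (hrs : M r s ≠ 2)
    (hu : rho cs u (rho cs (cs.simple s) (al r)) ≤ 0) : False := by
  classical
  have hl : 1 / 2 ≤ cc M r s ^ 2 := h.wt.mixed_sq cs pr h.ns hrs
  have hmix := (h.wt.mixed cs pr h.ns).2.resolve_left hrs
  by_cases hA : ∃ t ∈ L, t ≠ r ∧ M r t ≠ 2
  · obtain ⟨t, ht, htr, hrt⟩ := hA
    by_cases pt : 0 < ψ (cs.simple t)
    · have hu2 := h.F4a hr pr hrs ht pt htr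
      by_cases hsum : 1 ≤ cc M r t ^ 2 + cc M r s ^ 2
      · exact h.T2 hr ht htr hsum hu hu2
      · push Not at hsum
        have c1 : 1 / 2 ≤ cc M r t := half_le_cc M (Ne.symm htr) hrt
        have h4 : M r s = 4 := by
          rcases hmix with h4 | h6
          · exact h4
          · have := threequarters_le_cc_sq M h6
            nlinarith
        have h3 : M r t = 3 := by
          by_contra h3
          have h1 := M.off_diagonal r t (Ne.symm htr)
          have := half_le_cc_sq M (s := r) (t := t) (by omega)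
          nlinarith
        by_cases hts : M t s = 2
        · exact h.ns ((h.b3 t r s (by rw [M.symmetric]; exact h3) h4 hts).1 pr)
        · exact h.T1 hr ht htr hl (h.wt.mixed_sq cs pt h.ns hts) hu (h.F4b ht pt hts)
    · have hu2 := h.F5b hr pr ht pt hrt hrs
      have c1 := h.wt.mixed_sq cs pr pt hrt
      exact h.T2 hr ht htr (by linarith) hu hu2
  · push Not at hA
    by_cases hB : ∃ t ∈ L, t ≠ r ∧ M t s ≠ 2
    · obtain ⟨t, ht, htr, hts⟩ := hB
      by_cases pt : 0 < ψ (cs.simple t)
      · exact h.T1 hr ht htr hl (h.wt.mixed_sq cs pt h.ns hts) hu (h.F4b ht pt hts)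
      · obtain ⟨p, hp, pp, hpt⟩ := h.partner ht pt
        have hpr : p ≠ r := by rintro rfl; exact hpt (hA t ht htr)
        by_cases hps : M p s = 2
        · have hut := (h.F6 hp pp ht pt hpt hps).2
          by_cases hc : 1 / 2 ≤ cc M t s ^ 2
          · exact h.T1 hr ht htr hl hc hu hut
          · have h3 : M t s = 3 := by
              by_contra h3
              have h1 := M.off_diagonal t s (h.ls_ne ht)
              exact hc (half_le_cc_sq M (by omega))
            have h6 : M r s = 0 ∨ 6 ≤ M r s := by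
              rcases hmix with h4 | h6
              · exfalso
                exact h.ns ((h.b3 t s r h3 (by rw [M.symmetric]; exact h4)
                  (by rw [M.symmetric]; exact hA t ht htr)).2 pr)
              · exact h6
            exact h.T3 hr ht htr (threequarters_le_cc_sq M h6) h3 hu hut (h.F4b hr pr hrs)
        · exact h.T1 hr hp hpr hl (h.wt.mixed_sq cs pp h.ns hps) hu (h.F4b hp pp hps)
    · push Not at hB
      by_cases hne : (L.erase r).Nonempty
      · refine h.irr {r, s} (L.erase r) ?_ ⟨r, by simp⟩ hne ?_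
        · ext x
          simp only [Finset.mem_union, Finset.mem_insert, Finset.mem_singleton, Finset.mem_erase]
          constructor
          · rintro ((rfl | rfl) | hx)
            · exact Or.inr hr
            · exact Or.inl rfl
            · exact Or.inr hx.2
          · rintro (rfl | hx)
            · exact Or.inl (Or.inr rfl)
            · by_cases hxr : x = r
              · exact Or.inl (Or.inl hxr)
              · exact Or.inr ⟨hxr, hx⟩
        · intro a ha t ht
          rw [Finset.mem_erase] at ht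
          rw [Finset.mem_insert, Finset.mem_singleton] at ha
          rcases ha with rfl | rfl
          · exact hA t ht.2 ht.1
          · rw [M.symmetric]; exact hB t ht.2 ht.1
      · rw [Finset.not_nonempty_iff_eq_empty] at hne
        have hL : L = {r} := by
          rw [← Finset.insert_erase hr, hne]; rfl
        by_cases h0 : M r s = 0
        · have hu3 := h.F4b hr pr hrs
          refine K0_two cs (h.ls_ne hr) h0 (w := u) ?_
          have e3 : rho cs u (al r + al s) = (1 / 2 : ℝ) • rho cs u (rho cs (cs.simple s) (al r)) +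
              (1 / 2 : ℝ) • rho cs u (al r) := by
            rw [rho_simple, sig_al, cc_of_eq_zero M h0]
            simp only [map_add, map_smul]
            module
          rw [e3]
          exact add_nonpos (smul_nonpos_of_nonneg_of_nonpos (by norm_num) hu)
            (smul_nonpos_of_nonneg_of_nonpos (by norm_num) hu3)
        · apply h.nfin
          rw [hL]
          exact FinS.pair cs (Ne.symm (h.ls_ne hr)) (by rw [M.symmetric]; exact h0)

/-- Case β -/
lemma beta {p q : B} (hp : p ∈ L) (pp : 0 < ψ (cs.simple p)) (hq : q ∈ L)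
    (nq : ¬ 0 < ψ (cs.simple q)) (hpq : M p q ≠ 2)
    (hu1 : rho cs u (rho cs (cs.simple s) (al q)) ≤ 0)
    (hu2 : rho cs u (rho cs (cs.simple s) (rho cs (cs.simple q) (al p))) ≤ 0) : False := by
  have hne : p ≠ q := by rintro rfl; exact nq pp
  have hqs : M q s ≠ 2 := by
    intro hqs
    rw [rho_simple, sig_al, cc_of_eq_two M hqs] at hu1
    simp only [mul_zero, zero_smul, add_zero] at hu1
    exact not_pos_and_neg cs (h.up q hq hqs) hu1
  have c1 : 1 / 2 ≤ cc M p q := half_le_cc M hne hpq
  have c1s : 1 / 2 ≤ cc M p q ^ 2 := h.wt.mixed_sq cs pp nq hpq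
  have c2 : 1 / 2 ≤ cc M q s := half_le_cc M (h.ls_ne hq) hqs
  have hmix := (h.wt.mixed cs pp nq).2.resolve_left hpq
  have e1 : cc M q p = cc M p q := cc_symm M _ _
  have c3 : 0 ≤ cc M p s := cc_nonneg M (h.ls_ne hp)
  by_cases hsum : 1 ≤ cc M p q ^ 2 + cc M q s ^ 2
  · refine K0_three cs (a := q) (b := p) (c := s) (Ne.symm hne) (h.ls_ne hq) (h.ls_ne hp) (x := 1)
      (y := cc M p q) (z := cc M q s) (by norm_num) (by linarith) (by linarith) ?_ ?_ ?_
      (w := u) ?_
    · rw [e1]; nlinarith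
    · rw [e1]; nlinarith
    · nlinarith
    · by_cases hps : M p s = 2
      · have hF6 := (h.F6 hp pp hq nq hpq hps).1
        have e3 : (4 * cc M p q) • rho cs u ((1 : ℝ) • al q + cc M p q • al p + cc M q s • al s) =
            rho cs u (rho cs (cs.simple p) (rho cs (cs.simple q) (al p))) +
            rho cs u (rho cs (cs.simple s) (rho cs (cs.simple q) (al p))) := by
          simp only [rho_simple, sig_al, map_add, map_smul, cc_self, e1, cc_of_eq_two M hps]
          module
        have h5 : (4 * cc M p q) • rho cs u ((1 : ℝ) • al q + cc M p q • al p + cc M q s • al s)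
            ≤ 0 := by
          rw [e3]; exact add_nonpos hF6 hu2
        have h6 : rho cs u ((1 : ℝ) • al q + cc M p q • al p + cc M q s • al s) =
            (1 / (4 * cc M p q)) • ((4 * cc M p q) •
              rho cs u ((1 : ℝ) • al q + cc M p q • al p + cc M q s • al s)) := by
          rw [smul_smul, one_div, inv_mul_cancel₀ (by positivity)]
          simp
        rw [h6]
        exact smul_nonpos_of_nonneg_of_nonpos (by positivity) h5
      · have k1 := h.F4b hp pp hps
        have k2 := h.F5b hp pp hq nq hpq hps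
        have e3 : rho cs u ((1 : ℝ) • al q + cc M p q • al p + cc M q s • al s) =
            (1 / (4 * cc M p q)) • rho cs u (rho cs (cs.simple q) (al p)) +
            (cc M p q - 1 / (4 * cc M p q)) • rho cs u (al p) +
            (1 / 2 : ℝ) • rho cs u (rho cs (cs.simple s) (al q)) := by
          simp only [rho_simple, sig_al, map_add, map_smul, smul_add, smul_smul]
          have e4 : 1 / (4 * cc M p q) * (2 * cc M p q) = 1 / 2 := by field_simp; norm_num
          rw [e4]
          module
        rw [e3]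
        refine add_nonpos (add_nonpos (smul_nonpos_of_nonneg_of_nonpos (by positivity) k2)
          (smul_nonpos_of_nonneg_of_nonpos ?_ k1))
          (smul_nonpos_of_nonneg_of_nonpos (by norm_num) hu1)
        rw [sub_nonneg, div_le_iff₀ (by positivity)]
        nlinarith
  · push Not at hsum
    have h4 : M p q = 4 := by
      rcases hmix with h4 | h6
      · exact h4
      · have := threequarters_le_cc_sq M h6
        nlinarith
    have h3 : M q s = 3 := by
      by_contra h3
      have h1 := M.off_diagonal q s (h.ls_ne hq)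
      have := half_le_cc_sq M (s := q) (t := s) (by omega)
      nlinarith
    by_cases hps : M p s = 2
    · exact nq ((h.b3 s q p (by rw [M.symmetric]; exact h3) (by rw [M.symmetric]; exact h4)
        (by rw [M.symmetric]; exact hps)).2 pp)
    · have c4 : 1 / 2 ≤ cc M p s := half_le_cc M (h.ls_ne hp) hps
      have c5 : cc M q s = 1 / 2 := cc_of_eq_three M h3
      refine K0_three cs (a := q) (b := p) (c := s) (Ne.symm hne) (h.ls_ne hq) (h.ls_ne hp)
        (x := 1) (y := 1) (z := 1) (by norm_num) (by norm_num) (by norm_num) ?_ ?_ ?_ (w := u) ?_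
      · rw [e1]; linarith
      · rw [e1]; linarith
      · linarith
      · have k1 := h.F4b hp pp hps
        have e3 : rho cs u ((1 : ℝ) • al q + (1 : ℝ) • al p + (1 : ℝ) • al s) =
            rho cs u (al p) + rho cs u (rho cs (cs.simple s) (al q)) := by
          simp only [rho_simple, sig_al, map_add, map_smul, c5]
          module
        rw [e3]
        exact add_nonpos k1 hu1

/-- The core configuration is impossible. -/
theorem false : False := by
  classical
  set Q := L.filter (fun r => ¬ 0 < ψ (cs.simple r)) with hQ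
  have hQL : Q ⊆ L := Finset.filter_subset _ _
  have hQn : ∀ q ∈ Q, ¬ 0 < ψ (cs.simple q) := fun q hq => (Finset.mem_filter.1 hq).2
  -- u α_s ≥ 0
  have hus : 0 ≤ rho cs u (al s) := by
    rw [h.rho_u, rho_fix cs (A := L.filter fun r => M r s = 2) (fun a ha => (Finset.mem_filter.1 ha).2)
      (inv_mem h.cm)]
    exact h.mx.pos h.wt h.ns
  have hul := (pos_iff cs u s).1 hus
  obtain ⟨h', v, hdec, hv, hh'⟩ := exists_dec cs Q (u * cs.simple s)
  -- the key claim
  have claim : ∀ r ∈ L, 0 ≤ rho cs h' (al r) := by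
    intro r hr
    by_cases pr : 0 < ψ (cs.simple r)
    swap
    · exact hh' r (by rw [hQ, Finset.mem_filter]; exact ⟨hr, pr⟩)
    apply pos_of_not_neg
    intro hneg
    have alphacase : rho cs (u * cs.simple s) (al r) ≤ 0 → False := by
      intro h1
      rw [rho_mul] at h1
      by_cases hrs : M r s = 2
      · rw [rho_simple, sig_al, cc_of_eq_two M hrs] at h1
        simp only [mul_zero, zero_smul, add_zero] at h1
        exact not_pos_and_neg cs (h.up r hr hrs) h1
      · exact h.alpha hr pr hrs h1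
    by_cases hpart : ∃ q ∈ Q, M r q ≠ 2
    · obtain ⟨q, hq, hrq⟩ := hpart
      have hqL := hQL hq
      have nq := hQn q hq
      have hF : ∀ {v : B}, v ∈ L → v ≠ r → v ≠ q → M v r = 2 ∧ M v q = 2 :=
        fun hv => h.F1 hr pr hqL nq hrq hv
      have hE : ∀ t ∈ Q.erase q, M t r = 2 ∧ M t q = 2 := by
        intro t ht
        have ht1 := Finset.mem_of_mem_erase ht
        exact hF (hQL ht1) (by rintro rfl; exact hQn _ ht1 pr) (Finset.ne_of_mem_erase ht)
      have hu' : ({q} : Finset B) ∪ Q.erase q = Q := by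
        rw [← Finset.insert_eq, Finset.insert_erase hq]
      have hcomm : ∀ a ∈ ({q} : Finset B), ∀ t ∈ Q.erase q, M a t = 2 := by
        intro a ha t ht
        rw [Finset.mem_singleton.1 ha, M.symmetric]; exact (hE t ht).2
      obtain ⟨a, ha, b, hb, hvab⟩ := exists_comm_dec cs hcomm v (by rw [hu']; exact hv)
      have hbr : rho cs b (al r) = al r := rho_fix cs (fun a ha => (hE a ha).1) hb
      have hbq : rho cs b (al q) = al q := rho_fix cs (fun a ha => (hE a ha).2) hb
      have hbr' : rho cs b⁻¹ (al r) = al r := rho_fix cs (fun a ha => (hE a ha).1) (inv_mem hb)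
      rcases mem_WP_singleton ha with ha1 | ha1
      · apply alphacase
        rw [hdec, hvab, ha1, one_mul, rho_mul, hbr]
        exact hneg
      · have hvab' : v = b * cs.simple q := by
          rw [hvab, ha1]
          exact (mul_simple_comm cs (fun a ha => (hE a ha).2) hb).symm
        have hh'v : h' = (u * cs.simple s) * v⁻¹ := by rw [hdec]; simp
        have hvi : v⁻¹ = cs.simple q * b⁻¹ := by rw [hvab']; simp
        apply h.beta hr pr hqL nq hrq
        · rw [← rho_mul, hdec, hvab, ha1, rho_mul, rho_mul, hbq, rho_simple,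
            sig_al_self, map_neg]
          exact neg_nonpos.2 (hh' q hq)
        · rw [← rho_mul]
          have h3 : rho cs h' (al r) = rho cs (u * cs.simple s) (rho cs (cs.simple q) (al r)) := by
            rw [hh'v, hvi, rho_mul cs (u * cs.simple s), rho_mul cs (cs.simple q), hbr']
          rw [← h3]
          exact hneg
    · push Not at hpart
      apply alphacase
      rw [hdec, rho_mul, rho_fix cs (fun a ha => by rw [M.symmetric]; exact hpart a ha) hv]
      exact hneg
  -- lengths
  have hvL : v ∈ WP cs L := WP_mono cs hQL hv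
  have hminv := h.mxL.inv h.wt
  have l1 : cs.length (v * m) = cs.length v + cs.length m := by
    have h1 : ∀ q ∈ Q, 0 ≤ rho cs m⁻¹ (al q) := fun q hq => hminv.pos h.wt (hQn q hq)
    have h2 := length_mul_of_pos cs h1 (inv_mem hv)
    rw [← mul_inv_rev, length_inv, length_inv, length_inv] at h2
    omega
  have l2 : cs.length (h' * (v * m)) = cs.length h' + cs.length (v * m) :=
    length_mul_of_pos cs claim (mul_mem hvL h.mm)
  have l3 : cs.length (u * cs.simple s) = cs.length h' + cs.length v := by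
    rw [hdec]; exact length_mul_of_pos cs hh' hv
  have l4 : cs.length (u * cs.simple s * m) = cs.length (u * cs.simple s) + cs.length m := by
    have : u * cs.simple s * m = h' * (v * m) := by rw [hdec, mul_assoc]
    rw [this, l2, l1, l3]
    ring
  have w1 : ψ (u * cs.simple s * m) = ψ u + ψ (cs.simple s) + ψ m := by
    rw [h.wt _ _ l4, h.wt.mul_simple cs hul]
  have hu0 : ∀ r ∈ L.filter (fun r => M r s = 2), 0 ≤ rho cs u (al r) := fun r hr =>
    h.up r (Finset.mem_filter.1 hr).1 (Finset.mem_filter.1 hr).2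
  have w2 : ψ y = ψ u + ψ c := by
    rw [h.dec2]; exact h.wt _ _ (length_mul_of_pos cs hu0 h.cm)
  have huK : u ∈ WP cs (insert s L) := by
    have : u = y * c⁻¹ := by rw [h.dec2]; simp
    rw [this]
    exact mul_mem h.mx.mem (inv_mem (WP_mono cs
      ((Finset.filter_subset _ _).trans (Finset.subset_insert _ _)) h.cm))
  have hLK : WP cs L ≤ WP cs (insert s L) := WP_mono cs (Finset.subset_insert _ _)
  have w3 := h.mx.le (u * cs.simple s * m) (mul_mem (simple_mul_mem cs huK
    (Finset.mem_insert_self _ _)) (hLK h.mm))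
  rw [w1, w2] at w3
  -- g = u' s
  have hgK : g ∈ WP cs (insert s L) := by
    have : g = y * m⁻¹ := by rw [h.dec]; simp
    rw [this]
    exact mul_mem h.mx.mem (inv_mem (hLK h.mm))
  obtain ⟨r, hr⟩ := cs.exists_rightDescent_of_ne_one h.g1
  rw [isRightDescent_iff] at hr
  have hrs : r = s := by
    have h1 := tits_neg cs g r hr
    rcases Finset.mem_insert.1 (desc_mem cs hgK h1) with h2 | h2
    · exact h2
    · exact absurd (not_pos_and_neg cs (h.gp r h2) h1) not_false
  subst hrs
  set u' := g * cs.simple r with hu'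
  have hgu' : g = u' * cs.simple r := by rw [hu']; simp
  have w4 : ψ g = ψ u' + ψ (cs.simple r) := by
    have := h.wt.mul_simple cs (w := u') (s := r) (by rw [← hgu']; omega)
    rwa [← hgu'] at this
  have l5 : cs.length y = cs.length g + cs.length m := by
    rw [h.dec]; exact length_mul_of_pos cs h.gp h.mm
  have w5 : ψ y = ψ g + ψ m := by
    rw [h.dec] at l5 ⊢; exact h.wt _ _ l5
  have hu'0 : ∀ t ∈ L.filter (fun t => M t r = 2), 0 ≤ rho cs u' (al t) := by
    intro t ht
    rw [Finset.mem_filter] at ht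
    rw [hu', rho_mul, rho_simple, sig_al, cc_of_eq_two M ht.2]
    simp only [mul_zero, zero_smul, add_zero]
    exact h.gp t ht.1
  have l6 : cs.length (u' * c) = cs.length u' + cs.length c := length_mul_of_pos cs hu'0 h.cm
  have w6 : ψ (u' * c) = ψ u' + ψ c := h.wt _ _ l6
  have hu'K : u' ∈ WP cs (insert r L) := simple_mul_mem cs hgK (Finset.mem_insert_self _ _)
  have l7 := h.mx.len' (mul_mem hu'K (WP_mono cs
      ((Finset.filter_subset _ _).trans (Finset.subset_insert _ _)) h.cm)) (w := u' * c)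
    (by rw [w6]; linarith)
  -- ℓ(c) ≤ ℓ(m)
  obtain ⟨x, c', hm, hc', hx⟩ := exists_dec cs (L.filter fun t => M t r = 2) m
  have hxL : x ∈ WP cs L := by
    have : x = m * c'⁻¹ := by rw [hm]; simp
    rw [this]
    exact mul_mem h.mm (inv_mem (WP_mono cs (Finset.filter_subset _ _) hc'))
  have hgx : ∀ t ∈ L.filter (fun t => M t r = 2), 0 ≤ rho cs (g * x) (al t) := by
    intro t ht
    rw [rho_mul]
    exact comb_nonneg cs h.gp (hx t ht) (supp_rho cs hxL (Finset.mem_filter.1 ht).1)
  have hcc' : c' = c := by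
    have h1 : (g * x) * c' = u * c := by rw [← h.dec2, h.dec, hm, mul_assoc]
    exact (dec_unique cs h1 hc' h.cm hgx hu0).2
  have l8 : cs.length m = cs.length x + cs.length c := by
    rw [← hcc']
    conv_lhs => rw [hm]
    exact length_mul_of_pos cs hx hc'
  omega

end Core

end Pool.Agent.H80.Cox
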